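import Mathlib

/-!
# The size of a Bohr set
-/

set_option autoImplicit false

namespace Pool.Agent.U463.CB

open Finset

/-- the distance of the real number `t` to the nearest integer -/
noncomputable def dz (t : ℝ) : ℝ := |t - ((round t : ℤ) : ℝ)|

theorem dz_le (t : ℝ) (z : ℤ) : dz t ≤ |t - z| := round_le t z

theorem dz_nonneg (t : ℝ) : 0 ≤ dz t := abs_nonneg _

/-- two points of the same cell are close -/
theorem dz_cell {N m : ℕ} [NeZero N] (hm : 0 < m) (g x y : ZMod N)
    (h : m * (g * x).val / N = m * (g * y).val / N) :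
    dz (((g * (x - y)).val : ℝ) / N) ≤ 1 / m := by
  have hN0 : 0 < N := NeZero.pos N
  have hN : (0:ℝ) < N := by exact_mod_cast hN0
  have hm' : (0:ℝ) < m := by exact_mod_cast hm
  have h1 : (((g * (x - y)).val : ℤ) : ZMod N) = (((g * x).val : ℤ) - ((g * y).val : ℤ) : ℤ) := by
    push_cast
    simp [mul_sub]
  rw [ZMod.intCast_eq_intCast_iff_dvd_sub] at h1
  obtain ⟨z, hz⟩ := h1
  have h3 : (((g * x).val : ℝ) - ((g * y).val : ℝ)) - ((g * (x - y)).val : ℝ) = N * z := by
    exact_mod_cast hz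
  have h2 : ((g * (x - y)).val : ℝ) / N - ((-z : ℤ) : ℝ) =
      (((g * x).val : ℝ) - ((g * y).val : ℝ)) / N := by
    push_cast
    rw [eq_div_iff hN.ne', sub_mul, div_mul_cancel₀ _ hN.ne']
    linarith
  refine (dz_le _ (-z)).trans ?_
  rw [h2, abs_div, abs_of_pos hN, div_le_div_iff₀ hN hm', one_mul]
  -- the cells
  obtain ⟨a, ha⟩ : ∃ a, a = (g * x).val := ⟨_, rfl⟩
  obtain ⟨b, hb⟩ : ∃ b, b = (g * y).val := ⟨_, rfl⟩
  rw [← ha, ← hb] at h ⊢
  obtain ⟨k, hk⟩ : ∃ k, k = m * a / N := ⟨_, rfl⟩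
  have a1 : k * N ≤ m * a := by rw [hk]; exact Nat.div_mul_le_self _ _
  have a2 : m * a < (k + 1) * N := by
    rw [hk]; exact (Nat.div_lt_iff_lt_mul hN0).1 (Nat.lt_succ_self _)
  have b1 : k * N ≤ m * b := by rw [hk, h]; exact Nat.div_mul_le_self _ _
  have b2 : m * b < (k + 1) * N := by
    rw [hk, h]; exact (Nat.div_lt_iff_lt_mul hN0).1 (Nat.lt_succ_self _)
  have a1' : (k : ℝ) * N ≤ m * a := by exact_mod_cast a1
  have a2' : (m : ℝ) * a < (k + 1) * N := by exact_mod_cast a2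
  have b1' : (k : ℝ) * N ≤ m * b := by exact_mod_cast b1
  have b2' : (m : ℝ) * b < (k + 1) * N := by exact_mod_cast b2
  have h5 : |(a : ℝ) - b| * m = |(m : ℝ) * a - m * b| := by
    rw [← mul_sub, abs_mul, abs_of_pos hm']; ring
  rw [h5, abs_le]
  constructor <;> linarith

open Classical in
/-- a Bohr set with `d` frequencies and radius `1 / m` has at least `N / m ^ d` elements -/
theorem card_bohr {N m : ℕ} [NeZero N] (hm : 0 < m) (Γ : Finset (ZMod N)) :
    N ≤ ((univ : Finset (ZMod N)).filter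
      (fun x => ∀ g ∈ Γ, dz (((g * x).val : ℝ) / N) ≤ 1 / m)).card * m ^ Γ.card := by
  have hN0 : 0 < N := NeZero.pos N
  obtain ⟨f, hf⟩ : ∃ f : ZMod N → (Γ → ℕ), f = fun x (g : Γ) =>
    m * ((g : ZMod N) * x).val / N := ⟨_, rfl⟩
  have h1 := card_le_mul_card_image (f := f) (univ : Finset (ZMod N)) (((univ : Finset (ZMod N)).filter
      (fun x => ∀ g ∈ Γ, dz (((g * x).val : ℝ) / N) ≤ 1 / m)).card) (by
    intro c hc
    rw [mem_image] at hc
    obtain ⟨x₀, -, hx₀⟩ := hc
    refine card_le_card_of_injOn (fun x => x - x₀) ?_ ?_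
    · intro x hx
      rw [mem_coe, mem_filter] at hx
      rw [mem_coe, mem_filter]
      refine ⟨mem_univ _, fun g hg => dz_cell hm g x x₀ ?_⟩
      have h2 : f x = f x₀ := hx.2.trans hx₀.symm
      rw [hf] at h2
      exact congrFun h2 ⟨g, hg⟩
    · intro x _ y _ hxy
      exact sub_left_injective hxy)
  rw [card_univ, ZMod.card] at h1
  refine h1.trans (Nat.mul_le_mul_left _ ?_)
  have h2 : (univ : Finset (ZMod N)).image f ⊆ Fintype.piFinset (fun _ : Γ => range m) := by
    intro c hc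
    rw [mem_image] at hc
    obtain ⟨x, -, rfl⟩ := hc
    rw [Fintype.mem_piFinset]
    intro g
    rw [mem_range, hf]
    exact (Nat.div_lt_iff_lt_mul hN0).2 (Nat.mul_lt_mul_of_pos_left (ZMod.val_lt _) hm)
  refine (card_le_card h2).trans (le_of_eq ?_)
  rw [Fintype.card_piFinset, prod_const, card_univ, Fintype.card_coe, card_range]

end Pool.Agent.U463.CB
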