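import Pool.Agent.U463.CB.Repr
import Pool.Agent.U463.CB.Size

/-!
# A Bohr set contains a large proper coset progression
-/

set_option autoImplicit false

namespace Pool.Agent.U463.CB

open Finset H112

/-- the character `x ↦ γ x / N` -/
noncomputable def chr (N : ℕ) [NeZero N] (γ : ZMod N) : ZMod N →+ UnitAddCircle :=
  (ZMod.toAddCircle).comp (AddMonoidHom.mulLeft γ)

theorem chr_norm {N : ℕ} [NeZero N] (γ x : ZMod N) :
    ‖chr N γ x‖ = dz (((γ * x).val : ℝ) / N) := by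
  unfold chr dz
  rw [AddMonoidHom.comp_apply, AddMonoidHom.coe_mulLeft, ZMod.toAddCircle_apply, UnitAddCircle.norm_eq]

/-- the characters of a set of frequencies -/
def chrs (N : ℕ) [NeZero N] (Γ : Finset (ZMod N)) : Set (ZMod N →+ UnitAddCircle) :=
  {χ | ∃ γ ∈ Γ, χ = chr N γ}

theorem mem_bohr_chrs {N : ℕ} [NeZero N] (Γ : Finset (ZMod N)) (r : ℝ) (x : ZMod N) :
    x ∈ bohr (chrs N Γ) r ↔ ∀ γ ∈ Γ, dz (((γ * x).val : ℝ) / N) ≤ r := by
  constructor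
  · intro h γ hγ
    rw [← chr_norm]
    exact h _ ⟨γ, hγ, rfl⟩
  · rintro h χ ⟨γ, hγ, rfl⟩
    rw [chr_norm]
    exact h γ hγ

theorem dim_le {N : ℕ} [NeZero N] (Γ : Finset (ZMod N)) (m : ℕ)
    (T : (Fin m → ℝ) →ₗ[ℝ] (chrs N Γ → ℝ)) (hT : Function.Injective T) : m ≤ Γ.card := by
  classical
  have hS : chrs N Γ = ((Γ.image (chr N) : Finset (ZMod N →+ UnitAddCircle)) : Set _) := by
    ext χ
    rw [mem_coe, mem_image]
    constructor
    · rintro ⟨γ, hγ, rfl⟩; exact ⟨γ, hγ, rfl⟩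
    · rintro ⟨γ, hγ, rfl⟩; exact ⟨γ, hγ, rfl⟩
  have hfin : (chrs N Γ).Finite := by rw [hS]; exact Finset.finite_toSet _
  have : Fintype (chrs N Γ) := hfin.fintype
  have h1 := LinearMap.finrank_le_finrank_of_injective hT
  rw [Module.finrank_fin_fun, Module.finrank_fintype_fun_eq_card] at h1
  refine h1.trans ?_
  rw [← Nat.card_eq_fintype_card, Nat.card_coe_set_eq, hS, Set.ncard_coe_finset]
  exact card_image_le

/-- **a Bohr set of dimension `d` and radius `1 / M` contains a proper coset progression of dimension at most `d`** -/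
theorem prog_in_bohr {N : ℕ} [NeZero N] (Γ : Finset (ZMod N)) (M : ℕ) (hM : 6 ≤ M) :
    ∃ (H : AddSubgroup (ZMod N)) (k : ℕ) (a : Fin k → ZMod N) (L : Fin k → ℕ), k ≤ Γ.card ∧
      (∀ n n' : Fin k → ℤ, (∀ i, |n i| ≤ L i) → (∀ i, |n' i| ≤ L i) →
        (∑ i, (n i : ZMod N) * a i) - (∑ i, (n' i : ZMod N) * a i) ∈ H → n = n') ∧
      (∀ x : ZMod N, (∃ h ∈ H, ∃ n : Fin k → ℤ, (∀ i, |n i| ≤ L i) ∧
        x = h + ∑ i, (n i : ZMod N) * a i) → ∀ g ∈ Γ, dz (((g * x).val : ℝ) / N) ≤ 1 / M) ∧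
      N ≤ (4 * k ^ 3) ^ k * (Nat.card H * ∏ i, (2 * L i + 1)) * M ^ Γ.card := by
  classical
  have hM' : (6:ℝ) ≤ M := by exact_mod_cast hM
  have hρ0 : (0:ℝ) ≤ 1 / M := by positivity
  have hρ : 1 / (M:ℝ) ≤ 1 / 6 := one_div_le_one_div_of_le (by norm_num) hM'
  obtain ⟨S, hS⟩ : ∃ S, S = chrs N Γ := ⟨_, rfl⟩
  have hfin : (bohr S (1 / 6)).Finite := Set.toFinite _
  obtain ⟨m, Nm, ψ, h1, h2, h3, T, hT⟩ := repr S hfin hρ0 hρ
  have hm : m ≤ Γ.card := by
    subst hS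
    exact dim_le Γ m T hT
  have hLL : ∀ r : ℝ, r ≤ 1 / 6 → (LL Nm r).Finite := fun r hr =>
    (gap_finite S hfin Nm ψ h1 h2).subset (gap_LL_mono Nm hr)
  obtain ⟨k, v, L, hk, hv, hbox, hcard⟩ := discrete_john Nm hρ0 (hLL _ hρ)
  have hψ : ∀ n : Fin k → ℤ, ψ (∑ i, n i • v i) = ∑ i, (n i : ZMod N) * ψ (v i) := by
    intro n
    rw [map_sum]
    exact sum_congr rfl fun i _ => by rw [map_zsmul, zsmul_eq_mul]
  have hlin : ∀ a b : Fin k → ℤ, ∑ i, a i • v i = ∑ i, b i • v i → a = b := by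
    intro a b hab
    have h0 : ∑ i, (a i - b i) • v i = 0 := by
      simp only [sub_smul, Finset.sum_sub_distrib]
      rw [hab, sub_self]
    have := Fintype.linearIndependent_iff.1 hv (fun i => a i - b i) h0
    funext i
    exact sub_eq_zero.1 (this i)
  refine ⟨ann S, k, fun i => ψ (v i), L, hk.trans hm, ?_, ?_, ?_⟩
  · intro n n' hn hn' hmem
    apply hlin
    have h4 := gap_LL_sub Nm (hbox n hn) (hbox n' hn')
    have h5 : Nm (fun i => (((∑ i, n i • v i - ∑ i, n' i • v i) i : ℤ) : ℝ)) < 1 / 2 :=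
      lt_of_le_of_lt h4 (by linarith)
    have h6 : ψ (∑ i, n i • v i - ∑ i, n' i • v i) ∈ bohr S 0 := by
      intro γ hγ
      rw [map_sub, hψ, hψ]
      rw [hmem γ hγ, norm_zero]
    exact sub_eq_zero.1 (gap_LL_eq_zero Nm h1 ((h2 _ h5 0 le_rfl).1 h6))
  · rintro x ⟨h, hh, n, hn, rfl⟩
    rw [← mem_bohr_chrs, ← hS]
    have h4 := gap_map_mem S Nm ψ h2 hρ0 hρ (hbox n hn)
    rw [hψ] at h4
    intro γ hγ
    rw [map_add, hh γ hγ, zero_add]
    exact h4 γ hγ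
  · -- the size
    have h4 := card_bohr (N := N) (by omega : 0 < M) Γ
    refine h4.trans (Nat.mul_le_mul_right _ ?_)
    have h5 : ((univ : Finset (ZMod N)).filter
        (fun x => ∀ g ∈ Γ, dz (((g * x).val : ℝ) / N) ≤ 1 / M)).card ≤
        ((ann S : Set (ZMod N)) ×ˢ (LL Nm (1 / (M:ℝ)))).ncard := by
      rw [← Set.ncard_coe_finset]
      have hfin2 : ((ann S : Set (ZMod N)) ×ˢ (LL Nm (1 / (M:ℝ)))).Finite :=
        (Set.toFinite _).prod (hLL _ hρ)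
      refine (Set.ncard_le_ncard (t := (fun p : ZMod N × (Fin m → ℤ) => p.1 + ψ p.2) ''
        ((ann S : Set (ZMod N)) ×ˢ (LL Nm (1 / (M:ℝ))))) ?_ (hfin2.image _)).trans
        (Set.ncard_image_le hfin2)
      intro x hx
      rw [mem_coe, mem_filter] at hx
      have hx2 : x ∈ bohr S (1 / M) := by
        rw [hS, mem_bohr_chrs]; exact hx.2
      obtain ⟨c, hc, hxc⟩ := h3 x hx2
      exact ⟨(x - ψ c, c), ⟨hxc, hc⟩, by simp⟩
    refine h5.trans ?_
    rw [Set.ncard_prod]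
    calc (ann S : Set (ZMod N)).ncard * (LL Nm (1 / (M:ℝ))).ncard
        ≤ Nat.card (ann S) * ((4 * k ^ 3) ^ k * ∏ i, (2 * L i + 1)) :=
          Nat.mul_le_mul (le_of_eq rfl) hcard
      _ = _ := by ring

end Pool.Agent.U463.CB
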