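import Pool.Agent.U463.CB.Bog
import Pool.Agent.U463.CB.Prog
import Pool.Agent.N547.BG.SUM
import Pool.Agent.N91.BG.MOM
import Pool.Agent.N507.BG.PIG
import Pool.Agent.N80.BG.BIG
import Pool.Agent.N27.BG.Mul
import Pool.Agent.N342.BG.POL
import Pool.Agent.N674.BG.BOG
import Pool.Agent.N106.BG.IND
import Pool.Agent.N353.BG.MAX
import Pool.Agent.N700.BG.GEN
import Pool.Agent.N31.BG.REP
import Pool.Agent.N667.BG.CVX
import Pool.Agent.N933.BG.THM
import Pool.Agent.N173.BG.TRD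

/-!
# Iterated sumsets: the two directions
-/

set_option autoImplicit false

namespace Pool.Agent.U463.CB

open Finset Filter Pool.Agent.TH858 Pool.Agent.N173.BG

theorem t_pol : S_POL := Pool.Agent.N342.BG.t_POL Pool.Agent.N547.BG.t_SUM
  (Pool.Agent.N507.BG.t_PIG Pool.Agent.N547.BG.t_SUM Pool.Agent.N547.BG.t_CARD)
  (Pool.Agent.N80.BG.t_BIG Pool.Agent.N91.BG.t_MOM Pool.Agent.N547.BG.t_CARD) Pool.Agent.N27.BG.t_MUL

theorem t_thm : S_THM := Pool.Agent.N933.BG.t_THM t_pol Pool.Agent.N674.BG.t_BOG Pool.Agent.N106.BG.t_IND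
  Pool.Agent.N353.BG.t_MAX (Pool.Agent.N667.BG.t_CVX (Pool.Agent.N31.BG.t_REP Pool.Agent.N700.BG.t_GEN))

theorem t_trd : S_TRD := t_TRD t_thm

theorem KK_mono {N : ℕ} (K : ℕ) {X Y : Finset (ZMod N)} (h : X ⊆ Y) : KK K X ⊆ KK K Y := by
  rintro x ⟨a, b, ha, hb, rfl⟩
  exact ⟨a, b, fun i => h (ha i), fun i => h (hb i), rfl⟩

theorem two_sub_KK {N : ℕ} {K : ℕ} (hK : 2 ≤ K) {X : Finset (ZMod N)} (x : ZMod N)
    (h : ∃ a₁ ∈ X, ∃ a₂ ∈ X, ∃ a₃ ∈ X, ∃ a₄ ∈ X, x = a₁ + a₂ - a₃ - a₄) : x ∈ KK K X := by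
  obtain ⟨a₁, h1, a₂, h2, a₃, h3, a₄, h4, rfl⟩ := h
  obtain ⟨n, rfl⟩ : ∃ n, K = n + 2 := ⟨K - 2, by omega⟩
  refine ⟨Fin.cons a₁ (Fin.cons a₂ fun _ => a₁), Fin.cons a₃ (Fin.cons a₄ fun _ => a₁), ?_, ?_, ?_⟩
  · intro i
    refine Fin.cases ?_ (fun i => ?_) i
    · exact h1
    · rw [Fin.cons_succ]
      refine Fin.cases ?_ (fun i => ?_) i
      · exact h2
      · exact h1
  · intro i
    refine Fin.cases ?_ (fun i => ?_) i
    · exact h3
    · rw [Fin.cons_succ]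
      refine Fin.cases ?_ (fun i => ?_) i
      · exact h4
      · exact h1
  · rw [Fin.sum_univ_succ, Fin.sum_univ_succ, Fin.sum_univ_succ, Fin.sum_univ_succ]
    simp only [Fin.cons_zero, Fin.cons_succ]
    ring

/-- passing to a subset of density at most `1 / 2` -/
theorem shrink {N : ℕ} (hN : 2 ≤ N) (X : Finset (ZMod N)) (hX : X.Nonempty) (C l : ℝ) (hC : 0 < C)
    (hl : Real.log 2 ≤ l) (h : Real.log ((N:ℝ) / X.card) ≤ C * l * Real.log (2 + l)) :
    ∃ Y : Finset (ZMod N), Y ⊆ X ∧ Y.Nonempty ∧ (Y.card : ℝ) / N ≤ 1 / 2 ∧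
      Real.log ((N:ℝ) / Y.card) ≤ (C + 3) * l * Real.log (2 + l) := by
  have hlog2 := Real.log_two_gt_d9
  have hl0 : 0 < l := by linarith
  have hNr : (2:ℝ) ≤ N := by exact_mod_cast hN
  have h2l : Real.log 2 ≤ Real.log (2 + l) := Real.log_le_log (by norm_num) (by linarith)
  have h3 : 0 ≤ 3 * l * Real.log (2 + l) := by
    have : 0 < Real.log (2 + l) := by linarith
    positivity
  rcases Nat.lt_or_ge (N / 2) X.card with h1 | h1
  · obtain ⟨Y, hY, hYc⟩ := exists_subset_card_eq (s := X) (n := N / 2) (by omega)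
    have hd : 1 ≤ N / 2 := by omega
    refine ⟨Y, hY, card_pos.1 (by omega), ?_, ?_⟩
    · rw [hYc, div_le_iff₀ (by linarith)]
      have : 2 * (N / 2) ≤ N := Nat.mul_div_le _ _
      have : 2 * ((N / 2 : ℕ) : ℝ) ≤ N := by exact_mod_cast this
      linarith
    · rw [hYc]
      have h4 : N ≤ 3 * (N / 2) := by omega
      have h5 : (N:ℝ) ≤ 3 * ((N / 2 : ℕ) : ℝ) := by exact_mod_cast h4
      have h6 : (1:ℝ) ≤ ((N / 2 : ℕ) : ℝ) := by exact_mod_cast hd
      have h7 : (N:ℝ) / ((N / 2 : ℕ) : ℝ) ≤ 4 := by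
        rw [div_le_iff₀ (by linarith)]; linarith
      have h8 := Real.log_le_log (by positivity) h7
      have h9 : Real.log 4 = 2 * Real.log 2 := by
        rw [show (4:ℝ) = 2 ^ 2 by norm_num, Real.log_pow]; norm_num
      have hlog2' := Real.log_two_lt_d9
      have h10 : 2 * Real.log 2 ≤ 3 * l * Real.log (2 + l) := by nlinarith
      have h11 : 0 ≤ C * l * Real.log (2 + l) := by
        have : 0 < Real.log (2 + l) := by linarith
        positivity
      linarith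
  · refine ⟨X, Subset.rfl, hX, ?_, by linarith⟩
    rw [div_le_iff₀ (by linarith)]
    have : 2 * X.card ≤ N := by omega
    have : 2 * (X.card : ℝ) ≤ N := by exact_mod_cast this
    linarith

theorem exists_large (D : ℝ) (hD : 0 < D) : ∃ u₀ : ℝ, ∀ u : ℝ, u₀ ≤ u → D * Real.log u ^ 9 ≤ u := by
  have h := (Real.isLittleO_pow_log_id_atTop (n := 9)).def (show 0 < 1 / D by positivity)
  obtain ⟨u₀, hu₀⟩ := eventually_atTop.1 (h.and (eventually_ge_atTop (0:ℝ)))
  refine ⟨u₀, fun u hu => ?_⟩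
  obtain ⟨h1, h2⟩ := hu₀ u hu
  rw [Real.norm_eq_abs, id, Real.norm_eq_abs, abs_of_nonneg h2] at h1
  have h3 := (le_abs_self _).trans h1
  calc D * Real.log u ^ 9 ≤ D * (1 / D * u) := mul_le_mul_of_nonneg_left h3 hD.le
    _ = u := by field_simp

/-- **from an iterated sumset to a Bohr set** -/
theorem iter_to_bohr (m : ℕ) (hm : 10 ≤ m) (C : ℝ) (hC : 0 < C) : ∃ C' c' : ℝ, 0 < C' ∧ 0 < c' ∧
    ∀ (N : ℕ) [NeZero N] (X : Finset (ZMod N)) (K : ℕ) (l : ℝ), Real.log 2 ≤ l → X.Nonempty →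
      Real.log ((N:ℝ) / X.card) ≤ C * l * Real.log (2 + l) → (2 + l) ^ m ≤ K →
      ∃ (Γ : Finset (ZMod N)) (ε : ℝ), 0 < ε ∧ (Γ.card : ℝ) ≤ C' * l ∧ c' / l ^ 2 ≤ ε ∧
        ∀ x : ZMod N, (∀ g ∈ Γ, dz (((g * x).val : ℝ) / N) ≤ ε) → x ∈ KK K X := by
  obtain ⟨CM, hCM, hM⟩ := t_trd
  obtain ⟨C₁, hC₁⟩ : ∃ C₁ : ℝ, C₁ = C + 3 := ⟨_, rfl⟩
  obtain ⟨C₂, hC₂⟩ : ∃ C₂ : ℝ, C₂ = C₁ + 1 := ⟨_, rfl⟩
  have hC₁3 : 3 ≤ C₁ := by linarith
  have hC₂3 : 4 ≤ C₂ := by linarith
  obtain ⟨u₀, hu₀⟩ := exists_large (4 * CM * C₂ ^ 9) (by positivity)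
  have hlog2 := Real.log_two_gt_d9
  have hlog2' := Real.log_two_lt_d9
  -- the bound for the small values
  obtain ⟨l₀, hl₀⟩ : ∃ l₀ : ℝ, l₀ = max u₀ 1 := ⟨_, rfl⟩
  have hl₀1 : 1 ≤ l₀ := by rw [hl₀]; exact le_max_right _ _
  obtain ⟨T, hT⟩ : ∃ T : ℝ, T = C₁ * l₀ * Real.log (2 + l₀) := ⟨_, rfl⟩
  have hT0 : 0 < T := by
    rw [hT]
    have : 0 < Real.log (2 + l₀) := Real.log_pos (by linarith)
    positivity
  obtain ⟨E, hE⟩ : ∃ E : ℝ, E = Real.exp T := ⟨_, rfl⟩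
  have hE0 : 0 < E := by rw [hE]; exact Real.exp_pos _
  refine ⟨2 * (301 + 32 * E ^ 2) + CM * (2 + 4 * C₁), min (1 / (96 * E)) (1 / (128 * C₂)), by positivity,
    lt_min (by positivity) (by positivity), ?_⟩
  intro N _ X K l hl hX hdens hK
  have hl0 : 0 < l := by linarith
  have hl2 : 0 < l ^ 2 := by positivity
  have hN0 : 0 < N := NeZero.pos N
  have hNr : (0:ℝ) < N := by exact_mod_cast hN0
  rcases Nat.lt_or_ge 1 N with hN1 | hN1
  swap
  · -- `N = 1`
    have hN1' : N = 1 := by omega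
    subst hN1'
    refine ⟨∅, 1 + min (1 / (96 * E)) (1 / (128 * C₂)) / l ^ 2, by positivity, ?_, ?_, ?_⟩
    · rw [card_empty]; push_cast; positivity
    · linarith
    · intro x _
      obtain ⟨y, hy⟩ := hX
      exact ⟨fun _ => y, fun _ => y, fun _ => hy, fun _ => hy, Subsingleton.elim _ _⟩
  obtain ⟨Y, hYX, hY, hYh, hYd⟩ := shrink hN1 X hX C l hC hl hdens
  rw [← hC₁] at hYd
  have hYc : (0:ℝ) < Y.card := by exact_mod_cast hY.card_pos
  have hq2 : 2 ≤ (N:ℝ) / Y.card := by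
    rw [div_le_iff₀ hNr] at hYh
    rw [le_div_iff₀ hYc]
    linarith
  obtain ⟨lY, hlY⟩ : ∃ lY : ℝ, lY = Real.log ((N:ℝ) / Y.card) := ⟨_, rfl⟩
  have hlY2 : Real.log 2 ≤ lY := by rw [hlY]; exact Real.log_le_log (by norm_num) hq2
  rw [← hlY] at hYd
  have hu2 : (2:ℝ) ≤ 2 + l := by linarith
  have hlu : Real.log 2 ≤ Real.log (2 + l) := Real.log_le_log (by norm_num) hu2
  have hlu0 : 0 < Real.log (2 + l) := by linarith
  have hK2 : 2 ≤ K := by
    have h1 : (2:ℝ) ^ m ≤ (2 + l) ^ m := pow_le_pow_left₀ (by norm_num) hu2 m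
    have h2 : (2:ℝ) ^ 1 ≤ 2 ^ m := pow_le_pow_right₀ (by norm_num) (by omega)
    have h3 : (2:ℝ) ≤ K := by linarith
    exact_mod_cast h3
  rcases le_total l l₀ with hcase | hcase
  · -- small `l`
    obtain ⟨Γ, h1, h2⟩ := bog Y hY hYh
    have h3 : lY ≤ T := by
      refine hYd.trans ?_
      rw [hT]
      have h4 : Real.log (2 + l) ≤ Real.log (2 + l₀) := Real.log_le_log (by linarith) (by linarith)
      have h5 : C₁ * l ≤ C₁ * l₀ := mul_le_mul_of_nonneg_left hcase (by linarith)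
      exact mul_le_mul h5 h4 hlu0.le (by positivity)
    have h4 : (N:ℝ) / Y.card ≤ E := by
      rw [hE, ← Real.log_le_iff_le_exp (by positivity), ← hlY]
      exact h3
    refine ⟨Γ, 1 / (24 * E), by positivity, ?_, ?_, fun x hx => ?_⟩
    · have h5 : ((N:ℝ) / Y.card) ^ 2 ≤ E ^ 2 := pow_le_pow_left₀ (by positivity) h4 2
      have h6 : (Γ.card : ℝ) ≤ 301 + 32 * E ^ 2 := by linarith
      have h7 : 301 + 32 * E ^ 2 ≤ 2 * (301 + 32 * E ^ 2) * l := by
        have : 0 < 301 + 32 * E ^ 2 := by positivity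
        nlinarith
      have h8 : 0 ≤ CM * (2 + 4 * C₁) * l := by positivity
      linarith
    · have h5 : min (1 / (96 * E)) (1 / (128 * C₂)) ≤ 1 / (96 * E) := min_le_left _ _
      have h6 : (1:ℝ) / 4 ≤ l ^ 2 := by nlinarith
      calc min (1 / (96 * E)) (1 / (128 * C₂)) / l ^ 2 ≤ 1 / (96 * E) / l ^ 2 :=
            div_le_div_of_nonneg_right h5 hl2.le
        _ ≤ 1 / (96 * E) / (1 / 4) := div_le_div_of_nonneg_left (by positivity) (by norm_num) h6
        _ = 1 / (24 * E) := by field_simp; norm_num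
    · refine KK_mono K hYX (two_sub_KK hK2 x (h2 x fun g hg => (hx g hg).trans ?_))
      apply one_div_le_one_div_of_le (by positivity)
      linarith
  · -- large `l`
    have hl1 : 1 ≤ l := hl₀1.trans hcase
    have hlu₀ : u₀ ≤ 2 + l := by
      have : u₀ ≤ l₀ := by rw [hl₀]; exact le_max_left _ _
      linarith
    obtain ⟨R, hR⟩ : ∃ R : ℝ, R = C₁ * l * Real.log (2 + l) + 1 := ⟨_, rfl⟩
    have hR1 : 1 ≤ R := by
      rw [hR]
      have : 0 ≤ C₁ * l * Real.log (2 + l) := by positivity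
      linarith
    have hYR : lY ≤ R := by rw [hR]; linarith
    have hlY0 : 0 < lY := by linarith
    have hRup : R ≤ C₂ * (2 + l) * Real.log (2 + l) := by
      rw [hR, hC₂]
      have e1 : 1 ≤ (2 + l) * Real.log (2 + l) := by nlinarith
      have e2 : C₁ * l * Real.log (2 + l) ≤ C₁ * (2 + l) * Real.log (2 + l) := by
        apply mul_le_mul_of_nonneg_right _ hlu0.le
        nlinarith
      calc _ ≤ C₁ * (2 + l) * Real.log (2 + l) + (2 + l) * Real.log (2 + l) := add_le_add e2 e1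
        _ = _ := by ring
    have hK' : CM * Real.log ((N:ℝ) / Y.card) ^ 7 * (Real.log ((N:ℝ) / Y.card) + R) ^ 2 ≤ K := by
      rw [← hlY]
      have e1 : lY ^ 7 ≤ R ^ 7 := pow_le_pow_left₀ hlY0.le hYR 7
      have e2 : (lY + R) ^ 2 ≤ (2 * R) ^ 2 := pow_le_pow_left₀ (by linarith) (by linarith) 2
      calc CM * lY ^ 7 * (lY + R) ^ 2 ≤ CM * R ^ 7 * (2 * R) ^ 2 := by
            apply mul_le_mul _ e2 (by positivity) (by positivity)
            exact mul_le_mul_of_nonneg_left e1 hCM.le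
        _ = 4 * CM * R ^ 9 := by ring
        _ ≤ 4 * CM * (C₂ * (2 + l) * Real.log (2 + l)) ^ 9 := by
            apply mul_le_mul_of_nonneg_left _ (by positivity)
            exact pow_le_pow_left₀ (by linarith) hRup 9
        _ = (4 * CM * C₂ ^ 9 * Real.log (2 + l) ^ 9) * (2 + l) ^ 9 := by ring
        _ ≤ (2 + l) * (2 + l) ^ 9 := mul_le_mul_of_nonneg_right (hu₀ _ hlu₀) (by positivity)
        _ = (2 + l) ^ 10 := by ring
        _ ≤ (2 + l) ^ m := pow_le_pow_right₀ (by linarith) hm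
        _ ≤ K := hK
    obtain ⟨Γ, h1, h2⟩ := hM N Y K R hY hYh hR1 hK'
    rw [← hlY] at h1
    refine ⟨Γ, 1 / (8 * R), by positivity, ?_, ?_, fun x hx => KK_mono K hYX (h2 x fun g hg => hx g hg)⟩
    · -- the number of the frequencies
      have e1 : Real.log (2 + lY / R) ≤ 2 := by
        have : lY / R ≤ 1 := by rw [div_le_one (by linarith)]; exact hYR
        have h3 : 0 < 2 + lY / R := by positivity
        have := Real.log_le_sub_one_of_pos h3
        linarith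
      have e2 : Real.log (2 + l) / 2 ≤ Real.log (2 + lY + R) := by
        have h3 : Real.log (2 + l) ≤ Real.log ((2 + lY + R) ^ 2) := by
          apply Real.log_le_log (by linarith)
          have h4 : l * Real.log 2 ≤ R := by
            rw [hR]
            have : l * Real.log 2 ≤ l * Real.log (2 + l) := mul_le_mul_of_nonneg_left hlu hl0.le
            have h5 : 0 ≤ l * Real.log (2 + l) := by positivity
            nlinarith
          have h5 : (1:ℝ) / 2 * l ≤ R := by nlinarith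
          nlinarith
        rw [Real.log_pow] at h3
        push_cast at h3
        linarith
      have e3 : 0 < Real.log (2 + lY + R) := by linarith
      have e4 : lY * (Real.log (2 + lY / R) / Real.log (2 + lY + R)) ≤ 4 * C₁ * l := by
        rw [← mul_div_assoc, div_le_iff₀ e3]
        calc lY * Real.log (2 + lY / R) ≤ lY * 2 := mul_le_mul_of_nonneg_left e1 hlY0.le
          _ ≤ (C₁ * l * Real.log (2 + l)) * 2 := mul_le_mul_of_nonneg_right hYd (by norm_num)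
          _ = 4 * C₁ * l * (Real.log (2 + l) / 2) := by ring
          _ ≤ 4 * C₁ * l * Real.log (2 + lY + R) := mul_le_mul_of_nonneg_left e2 (by positivity)
      have e5 : (Γ.card : ℝ) ≤ CM * (1 + 4 * C₁ * l) :=
        h1.trans (mul_le_mul_of_nonneg_left (by linarith) hCM.le)
      have e6 : CM * (1 + 4 * C₁ * l) ≤ CM * (2 + 4 * C₁) * l := by nlinarith
      have e7 : 0 ≤ 2 * (301 + 32 * E ^ 2) * l := by positivity
      linarith
    · have e1 : R ≤ 16 * C₂ * l ^ 2 := by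
        have h3 : Real.log (2 + l) ≤ 2 + l := by
          have := Real.log_le_sub_one_of_pos (show 0 < 2 + l by linarith)
          linarith
        have h4 : 2 + l ≤ 4 * l := by linarith
        calc R ≤ C₂ * (2 + l) * Real.log (2 + l) := hRup
          _ ≤ C₂ * (2 + l) * (2 + l) := mul_le_mul_of_nonneg_left h3 (by positivity)
          _ ≤ C₂ * (4 * l) * (4 * l) := by
              apply mul_le_mul (mul_le_mul_of_nonneg_left h4 (by linarith)) h4 (by linarith) (by positivity)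
          _ = _ := by ring
      have h5 : min (1 / (96 * E)) (1 / (128 * C₂)) ≤ 1 / (128 * C₂) := min_le_right _ _
      calc min (1 / (96 * E)) (1 / (128 * C₂)) / l ^ 2 ≤ 1 / (128 * C₂) / l ^ 2 :=
            div_le_div_of_nonneg_right h5 hl2.le
        _ = 1 / (8 * (16 * C₂ * l ^ 2)) := by rw [div_div]; congr 1; ring
        _ ≤ 1 / (8 * R) := one_div_le_one_div_of_le (by linarith) (by linarith)

/-- **from a Bohr set to an iterated sumset** -/
theorem bohr_to_iter {N : ℕ} [NeZero N] (Γ : Finset (ZMod N)) (C D l ε : ℝ) (M K : ℕ) (hM : 1 ≤ M)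
    (hC : 0 < C) (hl : 0 < l) (hΓ : (Γ.card : ℝ) ≤ C * l) (hε : 1 / (M:ℝ) * (2 * K) ≤ ε)
    (hD : Real.log M ≤ D * Real.log (2 + l)) :
    ∃ X : Finset (ZMod N), X.Nonempty ∧ Real.log ((N:ℝ) / X.card) ≤ C * D * l * Real.log (2 + l) ∧
      ∀ x ∈ KK K X, ∀ g ∈ Γ, dz (((g * x).val : ℝ) / N) ≤ ε := by
  classical
  have hM0 : (1:ℝ) ≤ M := by exact_mod_cast hM
  obtain ⟨X, hX⟩ : ∃ X : Finset (ZMod N), X = (univ : Finset (ZMod N)).filter
      (fun x => ∀ g ∈ Γ, dz (((g * x).val : ℝ) / N) ≤ 1 / M) := ⟨_, rfl⟩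
  have hXm : ∀ x ∈ X, ∀ g ∈ Γ, dz (((g * x).val : ℝ) / N) ≤ 1 / M := by
    intro x hx
    rw [hX, mem_filter] at hx
    exact hx.2
  have hX0 : (0 : ZMod N) ∈ X := by
    rw [hX, mem_filter]
    refine ⟨mem_univ _, fun g _ => ?_⟩
    rw [mul_zero, ZMod.val_zero, Nat.cast_zero, zero_div]
    unfold dz
    simp
  have hXc : (0:ℝ) < X.card := by exact_mod_cast card_pos.2 ⟨0, hX0⟩
  refine ⟨X, ⟨0, hX0⟩, ?_, ?_⟩
  · have h1 := card_bohr (N := N) (by omega : 0 < M) Γ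
    rw [← hX] at h1
    have h2 : (N:ℝ) ≤ X.card * (M:ℝ) ^ Γ.card := by exact_mod_cast h1
    have h3 : (N:ℝ) / X.card ≤ (M:ℝ) ^ Γ.card := by
      rw [div_le_iff₀ hXc]; linarith
    have hN : (0:ℝ) < N := by exact_mod_cast NeZero.pos N
    have h4 := Real.log_le_log (by positivity) h3
    rw [Real.log_pow] at h4
    have hlm : 0 ≤ Real.log M := Real.log_nonneg hM0
    calc _ ≤ Γ.card * Real.log M := h4
      _ ≤ (C * l) * Real.log M := mul_le_mul_of_nonneg_right hΓ hlm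
      _ ≤ (C * l) * (D * Real.log (2 + l)) := mul_le_mul_of_nonneg_left hD (by positivity)
      _ = _ := by ring
  · rintro x ⟨a, b, ha, hb, rfl⟩ g hg
    refine le_trans ?_ hε
    rw [← chr_norm, map_sub, map_sum, map_sum]
    refine (norm_sub_le _ _).trans ?_
    have h1 : ∀ a : Fin K → ZMod N, (∀ i, a i ∈ X) → ‖∑ i, chr N g (a i)‖ ≤ K * (1 / M) := by
      intro a ha
      refine (norm_sum_le _ _).trans ?_
      calc ∑ i, ‖chr N g (a i)‖ ≤ ∑ _i : Fin K, 1 / (M:ℝ) :=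
            sum_le_sum fun i _ => by rw [chr_norm]; exact hXm _ (ha i) g hg
        _ = _ := by simp
    have h2 := h1 a ha
    have h3 := h1 b hb
    calc _ ≤ (K:ℝ) * (1 / M) + K * (1 / M) := add_le_add h2 h3
      _ = _ := by ring

end Pool.Agent.U463.CB
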