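import Pool.Agent.U463.CB.Size
import Pool.Agent.TH858.CB.Main

/-!
# Convex Bohr sets
-/

set_option autoImplicit false

namespace Pool.Agent.U463.CB

open Finset
open scoped Pointwise

/-- the set of all `x` for which the vector `(γ_k x / N)_k` is in `K` modulo one -/
def cvx {N d : ℕ} (γ : Fin d → ZMod N) (K : Set (Fin d → ℝ)) : Set (ZMod N) :=
  {x | ∃ y ∈ K, ∀ k, ∃ z : ℤ, y k = ((γ k * x).val : ℝ) / N + z}

theorem lift_iff {N : ℕ} [NeZero N] (c : ZMod N) (y : ℝ) :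
    (∃ z : ℤ, y = (c.val : ℝ) / N + z) ↔ ∃ a : ℤ, (a : ZMod N) = c ∧ y * N = a := by
  have hN : (0:ℝ) < N := by exact_mod_cast NeZero.pos N
  constructor
  · rintro ⟨z, rfl⟩
    refine ⟨(c.val : ℤ) + z * N, by push_cast; simp, ?_⟩
    push_cast
    field_simp
  · rintro ⟨a, rfl, ha⟩
    have h1 : (((a : ZMod N).val : ℤ) : ZMod N) = (a : ZMod N) := by simp
    rw [ZMod.intCast_eq_intCast_iff_dvd_sub] at h1
    obtain ⟨z, hz⟩ := h1
    refine ⟨z, ?_⟩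
    have h3 : (a : ℝ) - ((a : ZMod N).val : ℝ) = N * z := by exact_mod_cast hz
    rw [← mul_right_cancel_iff_of_pos hN, ha, add_mul, div_mul_cancel₀ _ hN.ne']
    linarith

theorem cvx_add {N d : ℕ} [NeZero N] (γ : Fin d → ZMod N) (K K' : Set (Fin d → ℝ)) (x x' : ZMod N)
    (h : x ∈ cvx γ K) (h' : x' ∈ cvx γ K') : x + x' ∈ cvx γ (K + K') := by
  obtain ⟨y, hy, hz⟩ := h
  obtain ⟨y', hy', hz'⟩ := h'
  refine ⟨y + y', Set.add_mem_add hy hy', fun k => ?_⟩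
  obtain ⟨a, ha1, ha2⟩ := (lift_iff _ _).1 (hz k)
  obtain ⟨a', ha1', ha2'⟩ := (lift_iff _ _).1 (hz' k)
  refine (lift_iff _ _).2 ⟨a + a', ?_, ?_⟩
  · push_cast
    rw [ha1, ha1', mul_add]
  · rw [Pi.add_apply, add_mul, ha2, ha2']
    push_cast
    rfl

theorem zero_mem_of_sym {d : ℕ} {K : Set (Fin d → ℝ)} (hK : Convex ℝ K) (hs : ∀ y ∈ K, -y ∈ K)
    (hne : K.Nonempty) : (0 : Fin d → ℝ) ∈ K := by
  obtain ⟨y, hy⟩ := hne
  have := hK hy (hs y hy) (a := 1 / 2) (b := 1 / 2) (by norm_num) (by norm_num) (by norm_num)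
  simpa using this

theorem zero_mem_cvx {N d : ℕ} [NeZero N] (γ : Fin d → ZMod N) {K : Set (Fin d → ℝ)}
    (h0 : (0 : Fin d → ℝ) ∈ K) : (0 : ZMod N) ∈ cvx γ K :=
  ⟨0, h0, fun k => ⟨0, by simp⟩⟩

/-- a set which is dense on a translate of a convex Bohr set -/
theorem dense {N d : ℕ} [NeZero N] (γ : Fin d → ZMod N) (K₀ K : Set (Fin d → ℝ))
    (h0 : (0 : Fin d → ℝ) ∈ K) (A : Finset (ZMod N)) (t : ZMod N)
    (h : (cvx γ (K₀ + K)).ncard < 2 * {x : ZMod N | x ∈ A ∧ x - t ∈ cvx γ K₀}.ncard) :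
    ∀ w ∈ cvx γ K, ∃ a ∈ A, ∃ b ∈ A, w = a - b := by
  intro w hw
  obtain ⟨S, hS⟩ : ∃ S : Set (ZMod N), S = {x : ZMod N | x ∈ A ∧ x - t ∈ cvx γ K₀} := ⟨_, rfl⟩
  rw [← hS] at h
  obtain ⟨B, hB⟩ : ∃ B : Set (ZMod N), B = (fun x => t + x) '' cvx γ (K₀ + K) := ⟨_, rfl⟩
  have hBc : B.ncard = (cvx γ (K₀ + K)).ncard := by
    rw [hB]; exact Set.ncard_image_of_injective _ (add_right_injective t)
  have h1 : S ⊆ B := by
    intro x hx
    rw [hS] at hx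
    rw [hB]
    have := cvx_add γ K₀ K (x - t) 0 hx.2 (zero_mem_cvx γ h0)
    exact ⟨x - t + 0, this, by ring⟩
  have h2 : (fun x => x + w) '' S ⊆ B := by
    rintro _ ⟨x, hx, rfl⟩
    rw [hS] at hx
    rw [hB]
    have := cvx_add γ K₀ K (x - t) w hx.2 hw
    exact ⟨x - t + w, this, by ring⟩
  have h3 : ((fun x => x + w) '' S).ncard = S.ncard :=
    Set.ncard_image_of_injective _ (add_left_injective w)
  by_contra hcon
  have hdisj : Disjoint S ((fun x => x + w) '' S) := by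
    rw [Set.disjoint_left]
    rintro a ha ⟨b, hb, hab⟩
    rw [hS] at ha hb
    exact hcon ⟨a, ha.1, b, hb.1, by simp only at hab; rw [← hab]; ring⟩
  have h4 := Set.ncard_union_eq hdisj (Set.toFinite _) (Set.toFinite _)
  have h5 := Set.ncard_le_ncard (Set.union_subset h1 h2) (Set.toFinite _)
  rw [h4, h3, hBc] at h5
  omega

/-- **convex Bohr sets contain Bohr sets** (library) -/
theorem bohr_in_cvx {N d : ℕ} [NeZero N] (γ : Fin d → ZMod N) (K : Set (Fin d → ℝ))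
    (hK : Convex ℝ K) (hs : ∀ y ∈ K, -y ∈ K) (hne : K.Nonempty) (R : ℝ) (hR : (d : ℝ) + 2 ≤ R)
    (hKR : ∀ y ∈ K, ∀ k, |y k| ≤ R) :
    ∃ Γ : Finset (ZMod N), (Γ.card : ℝ) ≤ 24 * d +
      4 * (Real.log ((N : ℝ) / ((cvx γ K).ncard : ℝ)) / Real.log R) ∧
      ∀ x : ZMod N, (∀ g ∈ Γ, dz (((g * x).val : ℝ) / N) ≤ 1 / (8 * R)) → x ∈ cvx γ K := by
  classical
  obtain ⟨A, hA⟩ : ∃ A : Finset (ZMod N), A = (Set.toFinite (cvx γ K)).toFinset := ⟨_, rfl⟩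
  have hmem : ∀ x, x ∈ A ↔ x ∈ cvx γ K := fun x => by rw [hA, Set.Finite.mem_toFinset]
  have hcard : (cvx γ K).ncard = A.card := by
    rw [hA]; exact Set.ncard_eq_toFinset_card _ _
  obtain ⟨Γ, h1, h2⟩ := Pool.Agent.TH858.CB.main γ K hK hs R hR A
    ⟨0, (hmem 0).2 (zero_mem_cvx γ (zero_mem_of_sym hK hs hne))⟩ (fun x => by
      rw [hmem]
      constructor
      · rintro ⟨y, hy, hz⟩
        exact ⟨y, hy, fun k => ⟨hKR y hy k, hz k⟩⟩
      · rintro ⟨y, hy, hz⟩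
        exact ⟨y, hy, fun k => (hz k).2⟩)
  refine ⟨Γ, ?_, fun x hx => (hmem x).1 (h2 x fun g hg => hx g hg)⟩
  rw [hcard]
  exact h1

/-- **from size to radius** -/
theorem size_to_radius {N d : ℕ} [NeZero N] (γ : Fin d → ZMod N) (K : Set (Fin d → ℝ))
    (hK : Convex ℝ K) (hs : ∀ y ∈ K, -y ∈ K) (hne : K.Nonempty) (C l : ℝ) (hC : 0 < C)
    (hl : Real.log 2 ≤ l) (hd : (d : ℝ) ≤ C * l) (hKR : ∀ y ∈ K, ∀ k, |y k| ≤ C * l)
    (hsize : Real.log ((N : ℝ) / ((cvx γ K).ncard : ℝ)) ≤ C * l * Real.log (2 + l)) :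
    ∃ (Γ : Finset (ZMod N)) (ε : ℝ), 0 < ε ∧ (Γ.card : ℝ) ≤ 32 * C * l ∧
      1 / (8 * (C + 3)) / l ≤ ε ∧
      ∀ x : ZMod N, (∀ g ∈ Γ, dz (((g * x).val : ℝ) / N) ≤ ε) → x ∈ cvx γ K := by
  have hlog2 := Real.log_two_gt_d9
  have hl0 : 0 < l := by linarith
  have hCl : 0 < C * l := by positivity
  obtain ⟨R, hR⟩ : ∃ R : ℝ, R = (C + 3) * l := ⟨_, rfl⟩
  have hR3 : 3 * l ≤ R := by rw [hR]; nlinarith
  have hR2 : 2 ≤ R := by linarith
  have hR0 : 0 < R := by linarith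
  have hRd : (d : ℝ) + 2 ≤ R := by
    have : R = C * l + 3 * l := by rw [hR]; ring
    linarith
  obtain ⟨Γ, h1, h2⟩ := bohr_in_cvx γ K hK hs hne R hRd (fun y hy k => (hKR y hy k).trans (by
    rw [hR]; nlinarith))
  have hlogR : 0 < Real.log R := Real.log_pos (by linarith)
  have h3 : Real.log (2 + l) ≤ 2 * Real.log R := by
    have e : 2 * Real.log R = Real.log (R ^ 2) := by rw [Real.log_pow]; norm_num
    rw [e]
    apply Real.log_le_log (by linarith)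
    nlinarith
  have h4 : Real.log ((N : ℝ) / ((cvx γ K).ncard : ℝ)) / Real.log R ≤ 2 * (C * l) := by
    rw [div_le_iff₀ hlogR]
    calc _ ≤ C * l * Real.log (2 + l) := hsize
      _ ≤ C * l * (2 * Real.log R) := mul_le_mul_of_nonneg_left h3 hCl.le
      _ = _ := by ring
  refine ⟨Γ, 1 / (8 * R), by positivity, ?_, ?_, h2⟩
  · linarith
  · rw [div_div, hR]
    apply le_of_eq
    congr 1
    ring

theorem exists_radius (κ : ℕ) (c l ε : ℝ) (hc : 0 < c) (hl : 0 ≤ l) (hε : c / (2 + l) ^ κ ≤ ε) :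
    ∃ m : ℕ, 6 ≤ m ∧ 1 / (m:ℝ) ≤ ε ∧
      Real.log m ≤ (κ + Real.log (8 + 1 / c) / Real.log 2) * Real.log (2 + l) := by
  have hlog2 := Real.log_two_gt_d9
  have hP : (1:ℝ) ≤ (2 + l) ^ κ := one_le_pow₀ (by linarith)
  have hP0 : (0:ℝ) < (2 + l) ^ κ := by linarith
  obtain ⟨m, hm⟩ : ∃ m : ℕ, m = ⌈(2 + l) ^ κ / c⌉₊ + 6 := ⟨_, rfl⟩
  have hm6 : (6:ℝ) ≤ m := by
    rw [hm]; push_cast; linarith [Nat.cast_nonneg (α := ℝ) ⌈(2 + l) ^ κ / c⌉₊]
  have hmlc : (2 + l) ^ κ / c ≤ m := by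
    rw [hm]; push_cast; linarith [Nat.le_ceil ((2 + l) ^ κ / c)]
  have hmup : (m:ℝ) ≤ (2 + l) ^ κ / c + 7 := by
    rw [hm]; push_cast
    have := Nat.ceil_lt_add_one (show 0 ≤ (2 + l) ^ κ / c by positivity)
    linarith
  refine ⟨m, by omega, ?_, ?_⟩
  · refine le_trans ?_ hε
    have hm' : (0:ℝ) < m := by linarith
    rw [div_le_div_iff₀ hm' hP0, one_mul]
    rw [div_le_iff₀ hc] at hmlc
    linarith
  · have h0 : 0 < Real.log 2 := by linarith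
    have hc1 : 0 < 1 / c := by positivity
    have h6 : Real.log m ≤ κ * Real.log (2 + l) + Real.log (8 + 1 / c) := by
      rw [← Real.log_pow, ← Real.log_mul hP0.ne' (by positivity)]
      apply Real.log_le_log (by linarith)
      refine hmup.trans ?_
      have e : (2 + l) ^ κ / c = (2 + l) ^ κ * (1 / c) := by ring
      rw [e]
      nlinarith
    have h7 : Real.log 2 ≤ Real.log (2 + l) := Real.log_le_log (by norm_num) (by linarith)
    have h8 : 0 ≤ Real.log (8 + 1 / c) / Real.log 2 :=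
      div_nonneg (Real.log_nonneg (by linarith)) h0.le
    have h9 : Real.log (8 + 1 / c) ≤ Real.log (8 + 1 / c) / Real.log 2 * Real.log (2 + l) := by
      have e : Real.log (8 + 1 / c) = Real.log (8 + 1 / c) / Real.log 2 * Real.log 2 := by
        rw [div_mul_cancel₀ _ h0.ne']
      calc Real.log (8 + 1 / c) = Real.log (8 + 1 / c) / Real.log 2 * Real.log 2 := e
        _ ≤ _ := mul_le_mul_of_nonneg_left h7 h8
    linarith

open Classical in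
/-- **from radius to size** -/
theorem radius_to_size {N : ℕ} [NeZero N] (Γ : Finset (ZMod N)) (C D l ε : ℝ) (m : ℕ) (hm3 : 3 ≤ m)
    (hC : 0 < C) (hl : 0 < l) (hΓ : (Γ.card : ℝ) ≤ C * l) (hε : 1 / (m:ℝ) ≤ ε)
    (hD : Real.log m ≤ D * Real.log (2 + l)) :
    ∃ (d : ℕ) (γ : Fin d → ZMod N) (K : Set (Fin d → ℝ)), Convex ℝ K ∧ (∀ y ∈ K, -y ∈ K) ∧
      K.Nonempty ∧ (d : ℝ) ≤ C * l ∧ (∀ y ∈ K, ∀ k, |y k| ≤ 1 / 3) ∧
      Real.log ((N : ℝ) / ((cvx γ K).ncard : ℝ)) ≤ C * D * l * Real.log (2 + l) ∧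
      ∀ x ∈ cvx γ K, ∀ g ∈ Γ, dz (((g * x).val : ℝ) / N) ≤ ε := by
  have hm3' : (3:ℝ) ≤ m := by exact_mod_cast hm3
  have hm0 : 0 < m := by omega
  obtain ⟨γ, hγ⟩ : ∃ γ : Fin Γ.card → ZMod N, γ = fun k => (Γ.equivFin.symm k : ZMod N) := ⟨_, rfl⟩
  have hγm : ∀ k, γ k ∈ Γ := fun k => by rw [hγ]; exact (Γ.equivFin.symm k).2
  have hγs : ∀ g ∈ Γ, ∃ k, γ k = g := fun g hg => ⟨Γ.equivFin ⟨g, hg⟩, by rw [hγ]; simp⟩
  obtain ⟨K, hK⟩ : ∃ K : Set (Fin Γ.card → ℝ), K = {y : Fin Γ.card → ℝ | ∀ k, |y k| ≤ 1 / (m:ℝ)} :=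
    ⟨_, rfl⟩
  have hin : ∀ x : ZMod N, (∀ g ∈ Γ, dz (((g * x).val : ℝ) / N) ≤ 1 / m) → x ∈ cvx γ K := by
    intro x hx
    refine ⟨fun k => ((γ k * x).val : ℝ) / N - ((round (((γ k * x).val : ℝ) / N) : ℤ) : ℝ), ?_,
      fun k => ⟨-round (((γ k * x).val : ℝ) / N), by push_cast; ring⟩⟩
    rw [hK]
    exact fun k => hx (γ k) (hγm k)
  have h4 : 0 < (cvx γ K).ncard := by
    rw [Set.ncard_pos (Set.toFinite _)]
    exact ⟨0, zero_mem_cvx γ (by rw [hK]; intro k; simp)⟩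
  have h4' : (0:ℝ) < (cvx γ K).ncard := by exact_mod_cast h4
  have hcard : (N : ℝ) / ((cvx γ K).ncard : ℝ) ≤ (m:ℝ) ^ Γ.card := by
    have h1 := card_bohr hm0 Γ
    have h2 : ((univ : Finset (ZMod N)).filter
        (fun x => ∀ g ∈ Γ, dz (((g * x).val : ℝ) / N) ≤ 1 / m)).card ≤ (cvx γ K).ncard := by
      rw [← Set.ncard_coe_finset]
      refine Set.ncard_le_ncard (fun x hx => ?_) (Set.toFinite _)
      rw [mem_coe, mem_filter] at hx
      exact hin x hx.2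
    have h3 : N ≤ (cvx γ K).ncard * m ^ Γ.card := h1.trans (Nat.mul_le_mul_right _ h2)
    rw [div_le_iff₀ h4']
    have h5 : (N:ℝ) ≤ (cvx γ K).ncard * (m:ℝ) ^ Γ.card := by exact_mod_cast h3
    linarith
  refine ⟨Γ.card, γ, K, ?_, ?_, ⟨0, by rw [hK]; intro k; simp⟩, hΓ, ?_, ?_, ?_⟩
  · rw [hK]
    intro y hy y' hy' a b ha hb hab k
    rw [Pi.add_apply, Pi.smul_apply, Pi.smul_apply, smul_eq_mul, smul_eq_mul]
    refine (abs_add_le _ _).trans ?_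
    rw [abs_mul, abs_mul, abs_of_nonneg ha, abs_of_nonneg hb]
    calc a * |y k| + b * |y' k| ≤ a * (1 / m) + b * (1 / m) :=
          add_le_add (mul_le_mul_of_nonneg_left (hy k) ha) (mul_le_mul_of_nonneg_left (hy' k) hb)
      _ = (a + b) * (1 / m) := by ring
      _ = 1 / m := by rw [hab, one_mul]
  · rw [hK]
    intro y hy k
    rw [Pi.neg_apply, abs_neg]
    exact hy k
  · intro y hy k
    rw [hK] at hy
    refine (hy k).trans ?_
    exact one_div_le_one_div_of_le (by norm_num) hm3'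
  · have hNpos : (0:ℝ) < N := by exact_mod_cast NeZero.pos N
    have h5 := Real.log_le_log (by positivity) hcard
    rw [Real.log_pow] at h5
    have hlm : 0 ≤ Real.log m := Real.log_nonneg (by linarith)
    calc Real.log ((N : ℝ) / ((cvx γ K).ncard : ℝ)) ≤ Γ.card * Real.log m := h5
      _ ≤ (C * l) * Real.log m := mul_le_mul_of_nonneg_right hΓ hlm
      _ ≤ (C * l) * (D * Real.log (2 + l)) := mul_le_mul_of_nonneg_left hD (by positivity)
      _ = _ := by ring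
  · rintro x ⟨y, hy, hz⟩ g hg
    obtain ⟨k, rfl⟩ := hγs g hg
    obtain ⟨z, hz'⟩ := hz k
    rw [hK] at hy
    refine le_trans ?_ ((hy k).trans hε)
    refine (dz_le _ (-z)).trans (le_of_eq ?_)
    rw [hz']
    congr 1
    push_cast
    ring

end Pool.Agent.U463.CB
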