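import Pool.Agent.TH858.GP.Dense2
import Pool.Agent.U463.CB.Lift

/-!
# Bogolyubov's lemma
-/

set_option autoImplicit false

namespace Pool.Agent.U463.CB

open Finset Pool.Agent.TH858

/-- Bogolyubov's lemma, from the library theorem on the sets that are dense on a progression -/
theorem bog {N : ℕ} [NeZero N] (X : Finset (ZMod N)) (hX : X.Nonempty) (h : (X.card : ℝ) / N ≤ 1 / 2) :
    ∃ Γ : Finset (ZMod N), (Γ.card : ℝ) ≤ 301 + 32 * ((N:ℝ) / X.card) ^ 2 ∧
      ∀ x : ZMod N, (∀ g ∈ Γ, dz (((g * x).val : ℝ) / N) ≤ 1 / (24 * ((N:ℝ) / X.card))) →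
        ∃ a₁ ∈ X, ∃ a₂ ∈ X, ∃ a₃ ∈ X, ∃ a₄ ∈ X, x = a₁ + a₂ - a₃ - a₄ := by
  classical
  have hN0 : 0 < N := NeZero.pos N
  have hNr : (0:ℝ) < N := by exact_mod_cast hN0
  have hXc : 0 < X.card := hX.card_pos
  have hXr : (1:ℝ) ≤ X.card := by exact_mod_cast hXc
  have hXr0 : (0:ℝ) < X.card := by linarith
  have h2X : 2 * (X.card : ℝ) ≤ N := by
    rw [div_le_iff₀ hNr] at h; linarith
  have hN2 : 2 ≤ N := by
    have : (2:ℝ) ≤ N := by linarith
    exact_mod_cast this
  obtain ⟨u, hu⟩ : ∃ u, u ∉ X := by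
    by_contra hcon
    push Not at hcon
    have h1 : X = univ := by ext x; simp [hcon x]
    rw [h1, card_univ, ZMod.card] at h2X
    linarith
  obtain ⟨L₀, hL₀⟩ : ∃ L₀ : ℕ, L₀ = (N - 1) / 2 := ⟨_, rfl⟩
  have hL1 : 2 * L₀ + 1 ≤ N := by omega
  have hL2 : N ≤ 2 * L₀ + 2 := by omega
  obtain ⟨a, ha⟩ : ∃ a : Fin 1 → ZMod N, a = fun _ => 1 := ⟨_, rfl⟩
  obtain ⟨L, hL⟩ : ∃ L : Fin 1 → ℕ, L = fun _ => L₀ := ⟨_, rfl⟩
  have hev : ∀ m : Fin 1 → ℤ, GP.ev a m = (m 0 : ZMod N) := by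
    intro m
    unfold GP.ev
    rw [ha]
    simp
  have hinj : Set.InjOn (GP.ev a) (GP.box L) := by
    intro m hm m' hm' hmm
    rw [Finset.mem_coe, GP.mem_box, hL] at hm hm'
    rw [hev, hev, ZMod.intCast_eq_intCast_iff_dvd_sub] at hmm
    have h1 := abs_le.1 (hm 0)
    have h2 := abs_le.1 (hm' 0)
    funext i
    have hi : i = 0 := Subsingleton.elim _ _
    rw [hi]
    obtain ⟨z, hz⟩ := hmm
    have hz0 : z = 0 := by
      by_contra hne
      have h3 : 1 ≤ |z| := Int.one_le_abs hne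
      have h4 : (N:ℤ) ≤ |m' 0 - m 0| := by
        rw [hz, abs_mul, Nat.abs_cast]
        nlinarith
      have h5 : |m' 0 - m 0| ≤ 2 * L₀ := by
        rw [abs_le]; constructor <;> linarith [h1.1, h1.2, h2.1, h2.2]
      have h6 : (2 * (L₀:ℤ)) + 1 ≤ N := by exact_mod_cast hL1
      linarith
    rw [hz0, mul_zero] at hz
    linarith
  have hmemX : ∀ z : ZMod N, z ≠ ((L₀ + 1 : ℕ) : ZMod N) → z ∈ GP.XX a L := by
    intro z hz
    unfold GP.XX
    rw [mem_image]
    have hzv : ((z.val : ℕ) : ZMod N) = z := ZMod.natCast_zmod_val z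
    have hzlt := ZMod.val_lt z
    rcases Nat.lt_or_ge L₀ z.val with h1 | h1
    · have h2 : z.val ≠ L₀ + 1 := fun h3 => hz (by rw [← hzv, h3])
      refine ⟨fun _ => (z.val : ℤ) - N, ?_, ?_⟩
      · rw [GP.mem_box, hL]
        intro _
        rw [abs_le]
        constructor
        · push_cast
          omega
        · push_cast
          omega
      · rw [hev]
        push_cast
        rw [hzv, ZMod.natCast_self, sub_zero]
    · refine ⟨fun _ => (z.val : ℤ), ?_, ?_⟩
      · rw [GP.mem_box, hL]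
        intro _
        rw [Nat.abs_cast]
        exact_mod_cast h1
      · rw [hev]
        push_cast
        exact hzv
  have hcardX : (GP.XX a L).card = 2 * L₀ + 1 := by
    unfold GP.XX
    rw [card_image_of_injOn hinj, GP.card_box, hL]
    simp
  obtain ⟨q, hq⟩ : ∃ q : ℝ, q = (N:ℝ) / X.card := ⟨_, rfl⟩
  have hq2 : 2 ≤ q := by rw [hq, le_div_iff₀ hXr0]; linarith
  have hqδ : (X.card : ℝ) / N = 1 / q := by rw [hq, one_div_div]
  obtain ⟨Γ, h1, h2⟩ := GP.dense a L hinj (3 * q) ((X.card : ℝ) / N) (by push_cast; linarith) (by positivity)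
    (by rw [hqδ, one_div, mul_comm, mul_assoc, mul_inv_cancel₀ (by linarith)]; norm_num) X
    (u - ((L₀ + 1 : ℕ) : ZMod N)) (fun y hy => hmemX _ (fun h3 => hu (by
      have : y = u := by linear_combination h3
      rw [← this]; exact hy))) (by
      rw [hcardX, div_mul_eq_mul_div, div_le_iff₀ hNr]
      apply mul_le_mul_of_nonneg_left _ hXr0.le
      exact_mod_cast hL1)
  refine ⟨Γ, ?_, fun x hx => h2 x fun g hg => ?_⟩
  · refine h1.trans ?_
    have h3 : Real.log ((N:ℝ) / (GP.XX a L).card) ≤ Real.log 2 := by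
      rw [hcardX]
      have h4 : (0:ℝ) < ((2 * L₀ + 1 : ℕ) : ℝ) := by positivity
      apply Real.log_le_log (by positivity)
      rw [div_le_iff₀ h4]
      have h5 : (N:ℝ) ≤ 2 * L₀ + 2 := by exact_mod_cast hL2
      push_cast
      have : (0:ℝ) ≤ L₀ := Nat.cast_nonneg _
      linarith
    have h5 : Real.log 2 ≤ Real.log (3 * q) := Real.log_le_log (by norm_num) (by linarith)
    have h6 : 0 < Real.log 2 := Real.log_pos (by norm_num)
    have h7 : Real.log ((N:ℝ) / (GP.XX a L).card) / Real.log (3 * q) ≤ 1 := by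
      rw [div_le_one (by linarith)]
      linarith
    have h8 : 32 / ((X.card : ℝ) / N) ^ 2 = 32 * q ^ 2 := by
      rw [hqδ]
      have : q ≠ 0 := by linarith
      field_simp
    rw [h8, ← hq]
    push_cast
    linarith
  · have h3 := hx g hg
    rw [← hq] at h3
    refine le_trans h3 (le_of_eq ?_)
    congr 1
    ring

end Pool.Agent.U463.CB
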