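import Pool.Agent.U463.CB.Lift
import Pool.Agent.U463.CB.Prog
import Pool.Agent.TH858.GP.Coset

/-!
# Progressions: the two directions
-/

set_option autoImplicit false

namespace Pool.Agent.U463.CB

open Finset Pool.Agent.TH858

/-- the size of a proper coset progression -/
theorem card_prog {N : ℕ} [NeZero N] {d : ℕ} (H : AddSubgroup (ZMod N)) (a : Fin d → ZMod N) (L : Fin d → ℕ)
    (hprop : ∀ n n' : Fin d → ℤ, (∀ i, |n i| ≤ L i) → (∀ i, |n' i| ≤ L i) →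
        (∑ i, (n i : ZMod N) * a i) - (∑ i, (n' i : ZMod N) * a i) ∈ H → n = n') :
    {x : ZMod N | ∃ h ∈ H, ∃ n : Fin d → ℤ, (∀ i, |n i| ≤ L i) ∧ x = h + ∑ i, (n i : ZMod N) * a i}.ncard =
      Nat.card H * (GP.box L).card := by
  have h1 : {x : ZMod N | ∃ h ∈ H, ∃ n : Fin d → ℤ, (∀ i, |n i| ≤ L i) ∧ x = h + ∑ i, (n i : ZMod N) * a i} =
      (fun p : ZMod N × (Fin d → ℤ) => p.1 + ∑ i, (p.2 i : ZMod N) * a i) ''
      ((H : Set (ZMod N)) ×ˢ (GP.box L : Set (Fin d → ℤ))) := by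
    ext x
    constructor
    · rintro ⟨h, hh, n, hn, rfl⟩
      refine ⟨(h, n), ⟨hh, ?_⟩, rfl⟩
      rw [Finset.mem_coe, GP.mem_box]
      exact hn
    · rintro ⟨⟨h, n⟩, ⟨hh, hn⟩, rfl⟩
      rw [Finset.mem_coe, GP.mem_box] at hn
      exact ⟨h, hh, n, hn, rfl⟩
  have h2 : Set.InjOn (fun p : ZMod N × (Fin d → ℤ) => p.1 + ∑ i, (p.2 i : ZMod N) * a i)
      ((H : Set (ZMod N)) ×ˢ (GP.box L : Set (Fin d → ℤ))) := by
    rintro ⟨h, n⟩ ⟨hh, hn⟩ ⟨h', n'⟩ ⟨hh', hn'⟩ heq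
    rw [Finset.mem_coe, GP.mem_box] at hn hn'
    have heq' : h + ∑ i, (n i : ZMod N) * a i = h' + ∑ i, (n' i : ZMod N) * a i := heq
    have h3 : n = n' := by
      refine hprop n n' hn hn' ?_
      have h4 : (∑ i, (n i : ZMod N) * a i) - (∑ i, (n' i : ZMod N) * a i) = h' - h := by
        rw [sub_eq_sub_iff_add_eq_add, add_comm, heq']
      rw [h4]
      exact H.sub_mem hh' hh
    subst h3
    have h5 := add_right_cancel heq'
    rw [h5]
  rw [h1, h2.ncard_image, Set.ncard_prod, Set.ncard_coe_finset]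
  rfl

theorem card_box {d : ℕ} (L : Fin d → ℕ) : (GP.box L).card = ∏ i, (2 * L i + 1) := by
  have h : GP.box L = H112.gapBox L := by
    ext m
    rw [GP.mem_box, H112.gap_mem_box]
  rw [h, H112.gap_card_box]

/-- **from a progression to a Bohr set** (library) -/
theorem prog_to_bohr {N : ℕ} [NeZero N] {d : ℕ} (H : AddSubgroup (ZMod N)) (a : Fin d → ZMod N)
    (L : Fin d → ℕ)
    (hprop : ∀ n n' : Fin d → ℤ, (∀ i, |n i| ≤ L i) → (∀ i, |n' i| ≤ L i) →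
        (∑ i, (n i : ZMod N) * a i) - (∑ i, (n' i : ZMod N) * a i) ∈ H → n = n')
    (P : Set (ZMod N)) (hP : P = {x : ZMod N | ∃ h ∈ H, ∃ n : Fin d → ℤ, (∀ i, |n i| ≤ L i) ∧
      x = h + ∑ i, (n i : ZMod N) * a i})
    (C l : ℝ) (hC : 0 < C) (hl : Real.log 2 ≤ l) (hd : (d : ℝ) ≤ C * l)
    (hdens : Real.log ((N : ℝ) / (P.ncard : ℝ)) ≤ C * l * Real.log (2 + l)) :
    ∃ (Γ : Finset (ZMod N)) (ε : ℝ), 0 < ε ∧ (Γ.card : ℝ) ≤ (185 * C + 2) * l ∧
      1 / (8 * (C + 3)) / l ≤ ε ∧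
      ∀ x : ZMod N, (∀ g ∈ Γ, dz (((g * x).val : ℝ) / N) ≤ ε) → x ∈ P := by
  have hlog2 := Real.log_two_gt_d9
  have hl0 : 0 < l := by linarith
  have hCl : 0 < C * l := by positivity
  obtain ⟨R, hR⟩ : ∃ R : ℝ, R = (C + 3) * l := ⟨_, rfl⟩
  have hR3 : 3 * l ≤ R := by rw [hR]; nlinarith
  have hR2 : 2 ≤ R := by linarith
  have hR0 : 0 < R := by linarith
  have hRd : (d : ℝ) + 2 ≤ R := by
    have : R = C * l + 3 * l := by rw [hR]; ring
    linarith
  obtain ⟨Γ, h1, h2⟩ := GP.coset H a L hprop R hRd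
  have hlogR : 0 < Real.log R := Real.log_pos (by linarith)
  have h3 : Real.log (2 + l) ≤ 2 * Real.log R := by
    have e : 2 * Real.log R = Real.log (R ^ 2) := by rw [Real.log_pow]; norm_num
    rw [e]
    apply Real.log_le_log (by linarith)
    nlinarith
  have hcard : (P.ncard : ℝ) = (Nat.card H : ℝ) * (GP.box L).card := by
    rw [hP, card_prog H a L hprop]
    push_cast
    rfl
  rw [← hcard] at h1
  have h4 : Real.log ((N : ℝ) / (P.ncard : ℝ)) / Real.log R ≤ 2 * (C * l) := by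
    rw [div_le_iff₀ hlogR]
    calc _ ≤ C * l * Real.log (2 + l) := hdens
      _ ≤ C * l * (2 * Real.log R) := mul_le_mul_of_nonneg_left h3 hCl.le
      _ = _ := by ring
  refine ⟨Γ, 1 / (8 * R), by positivity, ?_, ?_, fun x hx => ?_⟩
  · have h5 : (1:ℝ) ≤ 2 * l := by linarith
    calc (Γ.card : ℝ) ≤ 175 * d + 1 + 5 * (Real.log ((N : ℝ) / (P.ncard : ℝ)) / Real.log R) := h1
      _ ≤ 175 * (C * l) + 2 * l + 5 * (2 * (C * l)) := by linarith
      _ = (185 * C + 2) * l := by ring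
  · rw [div_div, hR]
    apply le_of_eq
    congr 1
    ring
  · obtain ⟨y, hy, m, hm, hxy⟩ := h2 x fun g hg => hx g hg
    rw [hP]
    exact ⟨y, hy, m, hm, hxy⟩

/-- **from a Bohr set to a progression** -/
theorem bohr_to_prog {N : ℕ} [NeZero N] (Γ : Finset (ZMod N)) (C D l ε : ℝ) (M : ℕ) (hM : 6 ≤ M)
    (hC : 0 < C) (hl : 0 < l) (hΓ : (Γ.card : ℝ) ≤ C * l) (hε : 1 / (M:ℝ) ≤ ε)
    (hD : Real.log M ≤ D * Real.log (2 + l)) :
    ∃ (H : AddSubgroup (ZMod N)) (k : ℕ) (a : Fin k → ZMod N) (L : Fin k → ℕ),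
      (∀ n n' : Fin k → ℤ, (∀ i, |n i| ≤ L i) → (∀ i, |n' i| ≤ L i) →
        (∑ i, (n i : ZMod N) * a i) - (∑ i, (n' i : ZMod N) * a i) ∈ H → n = n') ∧
      (k : ℝ) ≤ C * l ∧
      Real.log ((N : ℝ) / ({x : ZMod N | ∃ h ∈ H, ∃ n : Fin k → ℤ, (∀ i, |n i| ≤ L i) ∧
        x = h + ∑ i, (n i : ZMod N) * a i}.ncard : ℝ)) ≤
        C * (D + 5 + 3 * (Real.log (1 + C) / Real.log 2)) * l * Real.log (2 + l) ∧
      ∀ x : ZMod N, (∃ h ∈ H, ∃ n : Fin k → ℤ, (∀ i, |n i| ≤ L i) ∧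
        x = h + ∑ i, (n i : ZMod N) * a i) → ∀ g ∈ Γ, dz (((g * x).val : ℝ) / N) ≤ ε := by
  have hlog2 := Real.log_two_gt_d9
  obtain ⟨H, k, a, L, hk, hprop, hsub, hsize⟩ := prog_in_bohr Γ M hM
  have hkl : (k : ℝ) ≤ C * l := le_trans (by exact_mod_cast hk) hΓ
  refine ⟨H, k, a, L, hprop, hkl, ?_, fun x hx g hg => (hsub x hx g hg).trans hε⟩
  rw [card_prog H a L hprop, card_box]
  obtain ⟨P, hP⟩ : ∃ P : ℕ, P = Nat.card H * ∏ i, (2 * L i + 1) := ⟨_, rfl⟩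
  rw [← hP] at hsize ⊢
  have hN0 : 0 < N := NeZero.pos N
  have hP0 : 0 < P := by
    rcases Nat.eq_zero_or_pos P with h | h
    · rw [h] at hsize; simp at hsize; omega
    · exact h
  have hP0' : (0:ℝ) < P := by exact_mod_cast hP0
  have hNr : (0:ℝ) < N := by exact_mod_cast hN0
  have hM' : (6:ℝ) ≤ M := by exact_mod_cast hM
  have h1 : (N:ℝ) / P ≤ (4 * (k:ℝ) ^ 3) ^ k * (M:ℝ) ^ Γ.card := by
    rw [div_le_iff₀ hP0']
    have : (N:ℝ) ≤ (4 * (k:ℝ) ^ 3) ^ k * P * (M:ℝ) ^ Γ.card := by exact_mod_cast hsize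
    linarith
  have hl2 : Real.log 2 ≤ Real.log (2 + l) := Real.log_le_log (by norm_num) (by linarith)
  have h02 : 0 < Real.log 2 := by linarith
  have hlM : 0 ≤ Real.log M := Real.log_nonneg (by linarith)
  have hA : (Γ.card : ℝ) * Real.log M ≤ (C * l) * (D * Real.log (2 + l)) :=
    (mul_le_mul_of_nonneg_right hΓ hlM).trans (mul_le_mul_of_nonneg_left hD (by positivity))
  obtain ⟨E, hE⟩ : ∃ E : ℝ, E = Real.log (1 + C) / Real.log 2 := ⟨_, rfl⟩
  have hE0 : 0 ≤ E := by rw [hE]; exact div_nonneg (Real.log_nonneg (by linarith)) h02.le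
  have hE1 : Real.log (1 + C) ≤ E * Real.log (2 + l) := by
    have e : Real.log (1 + C) = E * Real.log 2 := by rw [hE, div_mul_cancel₀ _ h02.ne']
    rw [e]
    exact mul_le_mul_of_nonneg_left hl2 hE0
  rw [← hE]
  rcases Nat.eq_zero_or_pos k with hk0 | hk0
  · rw [hk0, pow_zero, one_mul] at h1
    have h2 := Real.log_le_log (by positivity) h1
    rw [Real.log_pow] at h2
    have h3 : 0 ≤ C * l * Real.log (2 + l) * (5 + 3 * E) := by
      have : 0 < Real.log (2 + l) := by linarith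
      positivity
    calc _ ≤ (Γ.card : ℝ) * Real.log M := h2
      _ ≤ (C * l) * (D * Real.log (2 + l)) := hA
      _ ≤ (C * l) * (D * Real.log (2 + l)) + C * l * Real.log (2 + l) * (5 + 3 * E) := by linarith
      _ = _ := by ring
  · have hk1 : (1:ℝ) ≤ k := by exact_mod_cast hk0
    have hk3 : (0:ℝ) < 4 * (k:ℝ) ^ 3 := by positivity
    have h2 := Real.log_le_log (by positivity) h1
    rw [Real.log_mul (by positivity) (by positivity), Real.log_pow, Real.log_pow] at h2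
    have h3 : Real.log (4 * (k:ℝ) ^ 3) ≤ (5 + 3 * E) * Real.log (2 + l) := by
      rw [Real.log_mul (by norm_num) (by positivity), Real.log_pow]
      have h4 : Real.log 4 = 2 * Real.log 2 := by
        rw [show (4:ℝ) = 2 ^ 2 by norm_num, Real.log_pow]; norm_num
      have h5 : Real.log k ≤ Real.log (1 + C) + Real.log (2 + l) := by
        rw [← Real.log_mul (by positivity) (by positivity)]
        apply Real.log_le_log (by linarith)
        nlinarith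
      rw [h4]
      push_cast
      nlinarith
    have h6 : 0 ≤ Real.log (4 * (k:ℝ) ^ 3) := by
      apply Real.log_nonneg
      have : (1:ℝ) ≤ (k:ℝ) ^ 3 := one_le_pow₀ hk1
      linarith
    have h7 : (k:ℝ) * Real.log (4 * (k:ℝ) ^ 3) ≤ (C * l) * ((5 + 3 * E) * Real.log (2 + l)) :=
      (mul_le_mul_of_nonneg_right hkl h6).trans (mul_le_mul_of_nonneg_left h3 (by positivity))
    calc _ ≤ (k:ℝ) * Real.log (4 * (k:ℝ) ^ 3) + (Γ.card : ℝ) * Real.log M := h2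
      _ ≤ (C * l) * ((5 + 3 * E) * Real.log (2 + l)) + (C * l) * (D * Real.log (2 + l)) :=
          add_le_add h7 hA
      _ = _ := by ring

end Pool.Agent.U463.CB
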