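import Pool.Agent.U463.CB.Iter

/-!
# Integers and cyclic groups
-/

set_option autoImplicit false

namespace Pool.Agent.U463.CB

open Finset Filter Pool.Agent.N173.BG

/-- iterated sumsets: the form with radius `c / ℓ` -/
theorem iter_to_bohr_one (m : ℕ) (hm : 10 ≤ m) (C : ℝ) (hC : 0 < C) : ∃ C' c' : ℝ, 0 < C' ∧ 0 < c' ∧
    ∀ (N : ℕ) [NeZero N] (X : Finset (ZMod N)) (K : ℕ) (l : ℝ), Real.log 2 ≤ l → X.Nonempty →
      Real.log ((N:ℝ) / X.card) ≤ C * l * Real.log (2 + l) → (2 + l) ^ m ≤ K →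
      ∃ (Γ : Finset (ZMod N)) (ε : ℝ), 0 < ε ∧ (Γ.card : ℝ) ≤ C' * l ∧ c' / l ≤ ε ∧
        ∀ x : ZMod N, (∀ g ∈ Γ, dz (((g * x).val : ℝ) / N) ≤ ε) → x ∈ KK K X := by
  obtain ⟨C₁, c₁, hC₁, hc₁, h⟩ := iter_to_bohr m hm C hC
  have hlog2 := Real.log_two_gt_d9
  obtain ⟨D, hD⟩ : ∃ D : ℝ, D = ((2:ℕ):ℝ) + Real.log (8 + 1 / c₁) / Real.log 2 := ⟨_, rfl⟩
  have hu : 0 < Real.log (8 + 1 / c₁) / Real.log 2 := by
    have : 0 < 1 / c₁ := by positivity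
    exact div_pos (Real.log_pos (by linarith)) (by linarith)
  have hD2 : 2 ≤ D := by rw [hD]; push_cast; linarith
  obtain ⟨E, hE⟩ : ∃ E : ℝ, E = C₁ * D + C₁ + 1 := ⟨_, rfl⟩
  have hE0 : 0 < E := by rw [hE]; positivity
  refine ⟨32 * E, 1 / (8 * (E + 3)), by positivity, by positivity, ?_⟩
  intro N _ X K l hl hX hdens hK
  have hl0 : 0 < l := by linarith
  have h2l : 0 < Real.log (2 + l) := Real.log_pos (by linarith)
  obtain ⟨Γ, ε, g1, g2, g3, g4⟩ := h N X K l hl hX hdens hK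
  have g5 : c₁ / (2 + l) ^ 2 ≤ ε := by
    refine le_trans ?_ g3
    apply div_le_div_of_nonneg_left hc₁.le (pow_pos hl0 2)
    exact pow_le_pow_left₀ hl0.le (by linarith) 2
  obtain ⟨M, hM6, hMε, hMD⟩ := exists_radius 2 c₁ l ε hc₁ hl0.le g5
  rw [← hD] at hMD
  obtain ⟨d, γ, K', k1, k2, k3, k4, k5, k6, k7⟩ := radius_to_size Γ C₁ D l ε M (by omega) hC₁ hl0 g2 hMε hMD
  obtain ⟨Γ', ε', e1, e2, e3, e4⟩ := size_to_radius γ K' k1 k2 k3 E l hE0 hl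
    (k4.trans (mul_le_mul_of_nonneg_right (by rw [hE]; nlinarith) hl0.le))
    (fun y hy k => (k5 y hy k).trans (by
      have : 1 ≤ E := by rw [hE]; nlinarith
      nlinarith))
    (k6.trans (mul_le_mul_of_nonneg_right (mul_le_mul_of_nonneg_right (by rw [hE]; nlinarith) hl0.le) h2l.le))
  exact ⟨Γ', ε', e1, e2, e3, fun x hx => g4 x (k7 x (e4 x hx))⟩

/-- the norm of `γ x / N` for an integer `x` -/
theorem dz_int {N : ℕ} [NeZero N] (γ : ZMod N) (x : ℤ) :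
    dz (((γ * (x : ZMod N)).val : ℝ) / N) = dz ((x : ℝ) * ((γ.val : ℝ) / N)) := by
  have hN : (0:ℝ) < N := by exact_mod_cast NeZero.pos N
  have h1 : (((γ * (x : ZMod N)).val : ℤ) : ZMod N) = ((x * (γ.val : ℤ) : ℤ) : ZMod N) := by
    push_cast
    simp [mul_comm]
  rw [ZMod.intCast_eq_intCast_iff_dvd_sub] at h1
  obtain ⟨z, hz⟩ := h1
  have h2 : (x : ℝ) * (γ.val : ℝ) - ((γ * (x : ZMod N)).val : ℝ) = N * z := by exact_mod_cast hz
  have h3 : (x : ℝ) * ((γ.val : ℝ) / N) = ((γ * (x : ZMod N)).val : ℝ) / N + z := by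
    field_simp
    linarith
  rw [h3]
  unfold dz
  rw [round_add_intCast]
  push_cast
  congr 1
  ring

/-- upper Banach density at least `α` -/
def DensAtLeast (A : Set ℤ) (α : ℝ) : Prop :=
  ∀ β : ℝ, β < α → ∀ L₀ : ℕ, ∃ (M : ℤ) (L : ℕ), L₀ ≤ L ∧ 0 < L ∧
    β * L ≤ ((A ∩ Set.Ico M (M + L)).ncard : ℝ)

/-- passing to intervals of a given length -/
theorem dens_interval (A : Set ℤ) (α β : ℝ) (hA : DensAtLeast A α) (hβ0 : 0 < β) (hβ : β < α) (l : ℕ)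
    (hl : 0 < l) : ∃ M : ℤ, β * l ≤ ((A ∩ Set.Ico M (M + l)).ncard : ℝ) := by
  classical
  by_contra hcon
  push Not at hcon
  obtain ⟨β', hβ'1, hβ'2⟩ := exists_between hβ
  obtain ⟨L₀, hL₀⟩ := exists_nat_ge (β * l / (β' - β))
  obtain ⟨M, L, hL, hL0, h⟩ := hA β' hβ'2 L₀
  have hlr : (0:ℝ) < l := by exact_mod_cast hl
  obtain ⟨q, hq⟩ : ∃ q : ℕ, q = L / l := ⟨_, rfl⟩
  have hqL : q * l ≤ L := by rw [hq]; exact Nat.div_mul_le_self _ _
  have hqL2 : L < (q + 1) * l := by rw [hq]; exact (Nat.div_lt_iff_lt_mul hl).1 (Nat.lt_succ_self _)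
  obtain ⟨B, hB⟩ : ∃ B : ℕ → Finset ℤ, B = fun j : ℕ =>
    (Finset.Ico (M + (j:ℤ) * l) (M + (j:ℤ) * l + l)).filter (· ∈ A) := ⟨_, rfl⟩
  have hBc : ∀ j : ℕ, ((B j).card : ℝ) < β * l := by
    intro j
    have h1 := hcon (M + j * l)
    have h2 : (A ∩ Set.Ico (M + j * l) (M + j * l + l)) = (B j : Set ℤ) := by
      ext x
      rw [hB]
      simp only [Finset.coe_filter, Finset.mem_Ico, Set.mem_inter_iff, Set.mem_Ico, Set.mem_ofPred_eq]
      tauto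
    rw [h2, Set.ncard_coe_finset] at h1
    exact h1
  have hcover : (A ∩ Set.Ico M (M + L)) ⊆ (((range (q + 1)).biUnion B : Finset ℤ) : Set ℤ) := by
    rintro x ⟨hxA, hx1, hx2⟩
    obtain ⟨n, hn⟩ : ∃ n : ℕ, x = M + n := ⟨(x - M).toNat, by omega⟩
    rw [Finset.mem_coe, mem_biUnion]
    refine ⟨n / l, ?_, ?_⟩
    · rw [mem_range]
      have hnL : n < L := by omega
      exact (Nat.div_lt_iff_lt_mul hl).2 (by omega)
    · rw [hB]
      simp only [Finset.mem_filter, Finset.mem_Ico]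
      have e1 : n / l * l ≤ n := Nat.div_mul_le_self _ _
      have e2 : n < n / l * l + l := by
        have := Nat.lt_succ_self (n / l)
        have := (Nat.div_lt_iff_lt_mul hl).1 this
        rw [Nat.succ_eq_add_one, add_mul, one_mul] at this
        exact this
      have e1' : ((n / l : ℕ) : ℤ) * l ≤ n := by exact_mod_cast e1
      have e2' : (n : ℤ) < ((n / l : ℕ) : ℤ) * l + l := by exact_mod_cast e2
      refine ⟨⟨by rw [hn]; linarith, by rw [hn]; linarith⟩, hxA⟩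
  have h1 := Set.ncard_le_ncard hcover (Finset.finite_toSet _)
  rw [Set.ncard_coe_finset] at h1
  have h2 : (((range (q + 1)).biUnion B).card : ℝ) ≤ ∑ j ∈ range (q + 1), ((B j).card : ℝ) := by
    exact_mod_cast card_biUnion_le
  have h3 : ∑ j ∈ range (q + 1), ((B j).card : ℝ) < ∑ _j ∈ range (q + 1), β * l :=
    sum_lt_sum_of_nonempty ⟨0, by simp⟩ fun j _ => hBc j
  rw [sum_const, card_range, nsmul_eq_mul] at h3
  have h4 : (((A ∩ Set.Ico M (M + L)).ncard : ℕ) : ℝ) ≤ ((range (q + 1)).biUnion B).card := by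
    exact_mod_cast h1
  have h5 : (q : ℝ) * l ≤ L := by exact_mod_cast hqL
  have h6 : β * L₀ ≤ β * L := by
    apply mul_le_mul_of_nonneg_left _ hβ0.le
    exact_mod_cast hL
  have h7 : β * l ≤ (β' - β) * L := by
    have h8 : β * l / (β' - β) ≤ L := hL₀.trans (by exact_mod_cast hL)
    rw [div_le_iff₀ (by linarith)] at h8
    linarith
  push_cast at h3
  have h9 : ((q : ℝ) + 1) * (β * l) ≤ β * L + β * l := by nlinarith
  have h10 : β' * L = β * L + (β' - β) * L := by ring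
  linarith


/-- from a cyclic group to the integers -/
theorem cyclic_to_int {N : ℕ} [NeZero N] (hN : 8 ≤ N) (A : Set ℤ) (M : ℤ) (β C c : ℝ) (hβ : 0 < β) (hC : 0 < C)
    (hc : 0 < c) (hβA : β * ((N / 8 : ℕ) : ℝ) ≤ ((A ∩ Set.Ico M (M + ((N / 8 : ℕ) : ℤ))).ncard : ℝ))
    (h : ∀ A' : Finset (ZMod N), A'.Nonempty → (A'.card : ℝ) / N ≤ 1 / 2 → (N : ℝ) / A'.card ≤ 16 / β →
      ∃ (Γ : Finset (ZMod N)) (ε : ℝ), 0 < ε ∧ (Γ.card : ℝ) ≤ C * Real.log ((N : ℝ) / A'.card) ∧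
        c / Real.log ((N : ℝ) / A'.card) ≤ ε ∧
        ∀ x : ZMod N, (∀ g ∈ Γ, dz (((g * x).val : ℝ) / N) ≤ ε) →
          ∃ a₁ ∈ A', ∃ a₂ ∈ A', ∃ a₃ ∈ A', ∃ a₄ ∈ A', x = a₁ + a₂ - a₃ - a₄) :
    ∃ θ : Fin ⌊C * Real.log (16 / β)⌋₊ → ℝ, (∀ i, 0 ≤ θ i ∧ θ i ≤ 1) ∧
      ∀ x : ℤ, |x| < ((N / 8 : ℕ) : ℤ) → (∀ i, dz ((x : ℝ) * θ i) ≤ c / Real.log (16 / β)) →
        ∃ a₁ ∈ A, ∃ a₂ ∈ A, ∃ a₃ ∈ A, ∃ a₄ ∈ A, x = a₁ + a₂ - a₃ - a₄ := by
  classical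
  obtain ⟨L, hL⟩ : ∃ L : ℕ, L = N / 8 := ⟨_, rfl⟩
  rw [← hL] at hβA ⊢
  have hL1 : 1 ≤ L := by omega
  have hL8 : 8 * L ≤ N := by omega
  have hL16 : N ≤ 16 * L := by omega
  have hNr : (0:ℝ) < N := by exact_mod_cast NeZero.pos N
  have hLr : (1:ℝ) ≤ L := by exact_mod_cast hL1
  obtain ⟨S, hS⟩ : ∃ S : Finset ℤ, S = (Finset.Ico M (M + (L:ℤ))).filter (· ∈ A) := ⟨_, rfl⟩
  have hSA : A ∩ Set.Ico M (M + (L:ℤ)) = (S : Set ℤ) := by
    ext x
    rw [hS]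
    simp only [Finset.coe_filter, Finset.mem_Ico, Set.mem_inter_iff, Set.mem_Ico, Set.mem_ofPred_eq]
    tauto
  rw [hSA, Set.ncard_coe_finset] at hβA
  have hSm : ∀ a ∈ S, a ∈ A ∧ M ≤ a ∧ a < M + L := by
    intro a ha
    rw [hS, Finset.mem_filter, Finset.mem_Ico] at ha
    exact ⟨ha.2, ha.1⟩
  obtain ⟨A', hA'⟩ : ∃ A' : Finset (ZMod N), A' = S.image (fun a => ((a - M : ℤ) : ZMod N)) := ⟨_, rfl⟩
  have hinj : Set.InjOn (fun a : ℤ => ((a - M : ℤ) : ZMod N)) S := by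
    intro a ha b hb hab
    simp only at hab
    obtain ⟨-, ha1, ha2⟩ := hSm a ha
    obtain ⟨-, hb1, hb2⟩ := hSm b hb
    rw [ZMod.intCast_eq_intCast_iff_dvd_sub] at hab
    obtain ⟨z, hz⟩ := hab
    have hz0 : z = 0 := by
      by_contra hne
      have h3 : 1 ≤ |z| := Int.one_le_abs hne
      have h4 : (N:ℤ) ≤ |(b - M) - (a - M)| := by
        rw [hz, abs_mul, Nat.abs_cast]
        nlinarith
      have h5 : |(b - M) - (a - M)| < L := by
        rw [abs_lt]; constructor <;> linarith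
      have h6 : (8:ℤ) * L ≤ N := by exact_mod_cast hL8
      linarith
    rw [hz0, mul_zero] at hz
    linarith
  have hcard : A'.card = S.card := by rw [hA']; exact card_image_of_injOn hinj
  have hSL : S.card ≤ L := by
    have : S.card ≤ (Finset.Ico M (M + (L:ℤ))).card := by rw [hS]; exact card_filter_le _ _
    rw [Int.card_Ico] at this
    simpa using this
  have hS0 : (0:ℝ) < S.card := lt_of_lt_of_le (by positivity) hβA
  have hS0' : 0 < S.card := by exact_mod_cast hS0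
  have hSLr : (S.card : ℝ) ≤ L := by exact_mod_cast hSL
  have hL8r : 8 * (L:ℝ) ≤ N := by exact_mod_cast hL8
  have hL16r : (N:ℝ) ≤ 16 * L := by exact_mod_cast hL16
  have hq8 : 8 ≤ (N:ℝ) / S.card := by rw [le_div_iff₀ hS0]; linarith
  have hq16 : (N:ℝ) / S.card ≤ 16 / β := by
    rw [div_le_div_iff₀ hS0 hβ]
    nlinarith
  obtain ⟨Γ, ε, h1, h2, h3, h4⟩ := h A' (card_pos.1 (by omega)) (by
    rw [hcard, div_le_iff₀ hNr]; linarith) (by rw [hcard]; exact hq16)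
  rw [hcard] at h2 h3
  have hl0 : 0 < Real.log ((N:ℝ) / S.card) := Real.log_pos (by linarith)
  have hll : Real.log ((N:ℝ) / S.card) ≤ Real.log (16 / β) := Real.log_le_log (by positivity) hq16
  have hΓ : Γ.card ≤ ⌊C * Real.log (16 / β)⌋₊ :=
    Nat.le_floor (h2.trans (mul_le_mul_of_nonneg_left hll hC.le))
  refine ⟨fun i => if h : i.val < Γ.card then ((Γ.equivFin.symm ⟨i.val, h⟩ : ZMod N).val : ℝ) / N else 0,
    fun i => ?_, fun x hx hθ => ?_⟩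
  · simp only
    split_ifs with hi
    · refine ⟨by positivity, ?_⟩
      rw [div_le_one hNr]
      exact_mod_cast (ZMod.val_lt _).le
    · exact ⟨le_rfl, zero_le_one⟩
  · obtain ⟨a₁, b1, a₂, b2, a₃, b3, a₄, b4, b5⟩ := h4 (x : ZMod N) (by
      intro g hg
      have hk : (Γ.equivFin ⟨g, hg⟩).val < Γ.card := (Γ.equivFin ⟨g, hg⟩).2
      have h5 := hθ ⟨(Γ.equivFin ⟨g, hg⟩).val, lt_of_lt_of_le hk hΓ⟩
      simp only [hk, dite_true, Fin.eta, Equiv.symm_apply_apply] at h5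
      rw [dz_int]
      exact h5.trans ((div_le_div_of_nonneg_left hc.le hl0 hll).trans h3))
    rw [hA', mem_image] at b1 b2 b3 b4
    obtain ⟨u₁, v1, rfl⟩ := b1
    obtain ⟨u₂, v2, rfl⟩ := b2
    obtain ⟨u₃, v3, rfl⟩ := b3
    obtain ⟨u₄, v4, rfl⟩ := b4
    obtain ⟨w1, w1', w1''⟩ := hSm _ v1
    obtain ⟨w2, w2', w2''⟩ := hSm _ v2
    obtain ⟨w3, w3', w3''⟩ := hSm _ v3
    obtain ⟨w4, w4', w4''⟩ := hSm _ v4
    refine ⟨u₁, w1, u₂, w2, u₃, w3, u₄, w4, ?_⟩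
    have h6 : (x : ZMod N) = ((u₁ + u₂ - u₃ - u₄ : ℤ) : ZMod N) := by
      rw [b5]
      push_cast
      ring
    rw [ZMod.intCast_eq_intCast_iff_dvd_sub] at h6
    obtain ⟨z, hz⟩ := h6
    have hz0 : z = 0 := by
      by_contra hne
      have h3 : 1 ≤ |z| := Int.one_le_abs hne
      have h4 : (N:ℤ) ≤ |(u₁ + u₂ - u₃ - u₄) - x| := by
        rw [hz, abs_mul, Nat.abs_cast]
        nlinarith
      have h5 : |(u₁ + u₂ - u₃ - u₄) - x| < 3 * L := by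
        have h7 := abs_lt.1 hx
        rw [abs_lt]; constructor <;> linarith [h7.1, h7.2]
      have h6 : (8:ℤ) * L ≤ N := by exact_mod_cast hL8
      have : (0:ℤ) ≤ L := by positivity
      linarith
    rw [hz0, mul_zero] at hz
    linarith

/-- moving the frequency -/
theorem dz_move (x : ℤ) (θ θ' : ℝ) : dz ((x:ℝ) * θ) ≤ dz ((x:ℝ) * θ') + |(x:ℝ)| * |θ - θ'| := by
  refine (dz_le _ (round ((x:ℝ) * θ'))).trans ?_
  have h : (x:ℝ) * θ - (round ((x:ℝ) * θ') : ℤ) =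
      ((x:ℝ) * θ' - (round ((x:ℝ) * θ') : ℤ)) + (x:ℝ) * (θ - θ') := by ring
  rw [h]
  refine (abs_add_le _ _).trans ?_
  rw [abs_mul]
  rfl

/-- **from infinitely many moduli to the integers** -/
theorem int_of_cyclic (𝒩 : Set ℕ) (h𝒩 : 𝒩.Infinite) (F : ℕ → ℕ) (C c : ℝ) (hC : 0 < C) (hc : 0 < c)
    (h : ∀ N ∈ 𝒩, 0 < N → ∀ A' : Finset (ZMod N), A'.Nonempty → (A'.card : ℝ) / N ≤ 1 / 2 →
      F ⌈(N : ℝ) / A'.card⌉₊ ≤ N →
      ∃ (Γ : Finset (ZMod N)) (ε : ℝ), 0 < ε ∧ (Γ.card : ℝ) ≤ C * Real.log ((N : ℝ) / A'.card) ∧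
        c / Real.log ((N : ℝ) / A'.card) ≤ ε ∧
        ∀ x : ZMod N, (∀ g ∈ Γ, dz (((g * x).val : ℝ) / N) ≤ ε) →
          ∃ a₁ ∈ A', ∃ a₂ ∈ A', ∃ a₃ ∈ A', ∃ a₄ ∈ A', x = a₁ + a₂ - a₃ - a₄)
    (A : Set ℤ) (α : ℝ) (hα0 : 0 < α) (hα : α ≤ 1 / 2) (hA : DensAtLeast A α) :
    ∃ (d : ℕ) (θ : Fin d → ℝ) (ε : ℝ), 0 < ε ∧ (d : ℝ) ≤ 6 * C * Real.log (1 / α) ∧
      c / 12 / Real.log (1 / α) ≤ ε ∧
      ∀ x : ℤ, (∀ i, dz ((x:ℝ) * θ i) ≤ ε) → ∃ a₁ ∈ A, ∃ a₂ ∈ A, ∃ a₃ ∈ A, ∃ a₄ ∈ A, x = a₁ + a₂ - a₃ - a₄ := by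
  obtain ⟨β, hβ⟩ : ∃ β : ℝ, β = α / 2 := ⟨_, rfl⟩
  have hβ0 : 0 < β := by rw [hβ]; positivity
  have hβα : β < α := by rw [hβ]; linarith
  obtain ⟨l, hl⟩ : ∃ l : ℝ, l = Real.log (1 / α) := ⟨_, rfl⟩
  obtain ⟨l', hl'⟩ : ∃ l' : ℝ, l' = Real.log (16 / β) := ⟨_, rfl⟩
  rw [← hl]
  have hlog2 := Real.log_two_gt_d9
  have hl2 : Real.log 2 ≤ l := by
    rw [hl]
    apply Real.log_le_log (by norm_num)
    rw [le_div_iff₀ hα0]; linarith
  have hll : l' = 5 * Real.log 2 + l := by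
    rw [hl', hβ, hl]
    have e : 16 / (α / 2) = 2 ^ 5 * (1 / α) := by field_simp; norm_num
    rw [e, Real.log_mul (by norm_num) (by positivity), Real.log_pow]
    norm_num
  have hl6 : l' ≤ 6 * l := by linarith
  have hl'0 : 0 < l' := by linarith
  have key : ∀ n : ℕ, ∃ θ : Fin ⌊C * l'⌋₊ → ℝ, (∀ i, 0 ≤ θ i ∧ θ i ≤ 1) ∧
      ∀ x : ℤ, |x| ≤ n → (∀ i, dz ((x : ℝ) * θ i) ≤ c / l') →
        ∃ a₁ ∈ A, ∃ a₂ ∈ A, ∃ a₃ ∈ A, ∃ a₄ ∈ A, x = a₁ + a₂ - a₃ - a₄ := by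
    intro n
    obtain ⟨N, hN, hnN'⟩ := h𝒩.exists_gt (8 * (n + 1) + (range (⌈16 / β⌉₊ + 1)).sup F)
    have hnN : 8 * (n + 1) < N := by omega
    have hFN : ∀ k ≤ ⌈16 / β⌉₊, F k ≤ N := by
      intro k hk
      have : F k ≤ (range (⌈16 / β⌉₊ + 1)).sup F := le_sup (f := F) (mem_range.2 (by omega))
      omega
    have : NeZero N := ⟨by omega⟩
    obtain ⟨M, hM⟩ := dens_interval A α β hA hβ0 hβα (N / 8) (by omega)
    have hcyc := cyclic_to_int (by omega) A M β C c hβ0 hC hc hM (fun A' h1 h2 h3 =>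
      h N hN (by omega) A' h1 h2 (hFN _ (Nat.ceil_le_ceil h3)))
    rw [← hl'] at hcyc
    obtain ⟨θ, h1, h2⟩ := hcyc
    refine ⟨θ, h1, fun x hx hθ => h2 x ?_ hθ⟩
    have : (n:ℤ) < ((N / 8 : ℕ) : ℤ) := by
      have : n < N / 8 := by omega
      exact_mod_cast this
    linarith
  choose θ hθ1 hθ2 using key
  have hcomp : IsCompact (Set.pi Set.univ (fun _ : Fin ⌊C * l'⌋₊ => Set.Icc (0:ℝ) 1)) :=
    isCompact_univ_pi fun _ => isCompact_Icc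
  obtain ⟨a, -, φ, hφ, hlim⟩ := hcomp.tendsto_subseq (x := θ) (fun n i _ => hθ1 n i)
  refine ⟨⌊C * l'⌋₊, a, c / (2 * l'), by positivity, ?_, ?_, fun x hx => ?_⟩
  · have h1 := Nat.floor_le (show 0 ≤ C * l' by positivity)
    calc ((⌊C * l'⌋₊ : ℕ) : ℝ) ≤ C * l' := h1
      _ ≤ C * (6 * l) := mul_le_mul_of_nonneg_left hl6 hC.le
      _ = _ := by ring
  · rw [div_div]
    apply div_le_div_of_nonneg_left hc.le (by positivity)
    linarith
  · have hε : 0 < c / (2 * l') := by positivity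
    have h1 : ∀ᶠ n in atTop, ∀ i, |(x:ℝ)| * |θ (φ n) i - a i| < c / (2 * l') := by
      rw [Filter.eventually_all]
      intro i
      have h2 : Tendsto (fun n => |(x:ℝ)| * |θ (φ n) i - a i|) atTop (nhds 0) := by
        have h3 : Tendsto (fun n => θ (φ n) i) atTop (nhds (a i)) :=
          (continuous_apply i).continuousAt.tendsto.comp hlim
        have h4 : Tendsto (fun n => |(x:ℝ)| * |θ (φ n) i - a i|) atTop (nhds (|(x:ℝ)| * |a i - a i|)) :=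
          (h3.sub_const (a i)).abs.const_mul _
        rw [sub_self, abs_zero, mul_zero] at h4
        exact h4
      exact h2.eventually (gt_mem_nhds hε)
    obtain ⟨n, hn1, hn2⟩ := (h1.and (eventually_ge_atTop x.natAbs)).exists
    refine hθ2 (φ n) x ?_ fun i => ?_
    · have h3 : n ≤ φ n := hφ.id_le n
      have h4 : x.natAbs ≤ φ n := hn2.trans h3
      rw [Int.abs_eq_natAbs]
      exact_mod_cast h4
    · refine (dz_move x _ (a i)).trans ?_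
      have h3 := hx i
      have h4 := hn1 i
      have e : c / l' = c / (2 * l') + c / (2 * l') := by field_simp; norm_num
      linarith

/-- cells of the torus -/
theorem dz_fract {M : ℕ} (hM : 0 < M) (a b : ℝ) (h : ⌊(M:ℝ) * Int.fract a⌋₊ = ⌊(M:ℝ) * Int.fract b⌋₊) :
    dz (a - b) ≤ 1 / M := by
  have hM' : (0:ℝ) < M := by exact_mod_cast hM
  have h1 : a - b = (Int.fract a - Int.fract b) + ((⌊a⌋ - ⌊b⌋ : ℤ) : ℝ) := by
    push_cast
    linarith [Int.floor_add_fract a, Int.floor_add_fract b]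
  refine (dz_le _ (⌊a⌋ - ⌊b⌋)).trans ?_
  rw [h1, add_sub_cancel_right]
  obtain ⟨k, hk⟩ : ∃ k, k = ⌊(M:ℝ) * Int.fract a⌋₊ := ⟨_, rfl⟩
  have ha0 : 0 ≤ (M:ℝ) * Int.fract a := mul_nonneg hM'.le (Int.fract_nonneg a)
  have hb0 : 0 ≤ (M:ℝ) * Int.fract b := mul_nonneg hM'.le (Int.fract_nonneg b)
  have a1 : (k:ℝ) ≤ M * Int.fract a := by rw [hk]; exact Nat.floor_le ha0
  have a2 : M * Int.fract a < (k:ℝ) + 1 := by rw [hk]; exact Nat.lt_floor_add_one _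
  have b1 : (k:ℝ) ≤ M * Int.fract b := by rw [hk, h]; exact Nat.floor_le hb0
  have b2 : M * Int.fract b < (k:ℝ) + 1 := by rw [hk, h]; exact Nat.lt_floor_add_one _
  rw [le_div_iff₀ hM']
  have h5 : |Int.fract a - Int.fract b| * M = |M * Int.fract a - M * Int.fract b| := by
    rw [← mul_sub, abs_mul, abs_of_pos hM']; ring
  rw [h5, abs_le]
  constructor <;> linarith

/-- **from the integers to a cyclic group** -/
theorem iter_of_int {N : ℕ} [NeZero N] (A : Finset (ZMod N)) (m : ℕ) (C c l : ℝ) (hC : 0 < C) (hc : 0 < c)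
    (hl : Real.log 2 ≤ l) (d : ℕ) (θ : Fin d → ℝ) (ε : ℝ) (hd : (d : ℝ) ≤ C * l) (hε : c / l ≤ ε)
    (h : ∀ x : ℤ, (∀ i, dz ((x:ℝ) * θ i) ≤ ε) → ∃ a₁ a₂ a₃ a₄ : ℤ, (a₁ : ZMod N) ∈ A ∧ (a₂ : ZMod N) ∈ A ∧
      (a₃ : ZMod N) ∈ A ∧ (a₄ : ZMod N) ∈ A ∧ x = a₁ + a₂ - a₃ - a₄) :
    ∃ (X : Finset (ZMod N)) (K : ℕ), X.Nonempty ∧
      Real.log ((N:ℝ) / X.card) ≤ C * (((1 + m : ℕ) : ℝ) + Real.log (8 + 1 / (c / 4)) / Real.log 2) * l *
        Real.log (2 + l) ∧ (2 + l) ^ m ≤ (K : ℝ) ∧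
      ∀ x ∈ KK K X, ∃ a₁ ∈ A, ∃ a₂ ∈ A, ∃ a₃ ∈ A, ∃ a₄ ∈ A, x = a₁ + a₂ - a₃ - a₄ := by
  classical
  have hlog2 := Real.log_two_gt_d9
  have hl0 : 0 < l := by linarith
  have g5 : c / (2 + l) ^ 1 ≤ ε := by
    rw [pow_one]
    refine le_trans ?_ hε
    apply div_le_div_of_nonneg_left hc.le hl0
    linarith
  have hP : (1:ℝ) ≤ (2 + l) ^ m := one_le_pow₀ (by linarith)
  have hPκ : (0:ℝ) < (2 + l) ^ 1 := by positivity
  obtain ⟨K, hK⟩ : ∃ K : ℕ, K = ⌈(2 + l) ^ m⌉₊ := ⟨_, rfl⟩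
  have hK1 : (2 + l) ^ m ≤ (K : ℝ) := by rw [hK]; exact Nat.le_ceil _
  have hK2 : (K : ℝ) ≤ 2 * (2 + l) ^ m := by
    have := Nat.ceil_lt_add_one (show 0 ≤ (2 + l) ^ m by positivity)
    rw [hK]; linarith
  have hK0 : (0:ℝ) < K := by linarith
  have g6 : c / 4 / (2 + l) ^ (1 + m) ≤ ε / (2 * K) := by
    rw [le_div_iff₀ (by positivity)]
    refine le_trans ?_ g5
    rw [pow_add, div_div, div_mul_eq_mul_div, div_le_div_iff₀ (by positivity) hPκ]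
    calc c * (2 * K) * (2 + l) ^ 1 ≤ c * (2 * (2 * (2 + l) ^ m)) * (2 + l) ^ 1 := by
          apply mul_le_mul_of_nonneg_right _ hPκ.le
          apply mul_le_mul_of_nonneg_left _ hc.le
          linarith
      _ = c * (4 * ((2 + l) ^ 1 * (2 + l) ^ m)) := by ring
  obtain ⟨M, hM6, hMε, hMD⟩ := exists_radius (1 + m) (c / 4) l (ε / (2 * K)) (by positivity) hl0.le g6
  have hM0 : 0 < M := by omega
  have hM' : (6:ℝ) ≤ M := by exact_mod_cast hM6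
  obtain ⟨X, hX⟩ : ∃ X : Finset (ZMod N), X = univ.filter
      (fun x => ∃ y : ℤ, (y : ZMod N) = x ∧ ∀ i, dz ((y:ℝ) * θ i) ≤ 1 / M) := ⟨_, rfl⟩
  have hXm : ∀ x, x ∈ X ↔ ∃ y : ℤ, (y : ZMod N) = x ∧ ∀ i, dz ((y:ℝ) * θ i) ≤ 1 / M := by
    intro x
    rw [hX, mem_filter]
    simp
  have hX0 : (0 : ZMod N) ∈ X := by
    rw [hXm]
    refine ⟨0, by simp, fun i => ?_⟩
    unfold dz
    simp
  have hXc : (0:ℝ) < X.card := by exact_mod_cast card_pos.2 ⟨0, hX0⟩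
  refine ⟨X, K, ⟨0, hX0⟩, ?_, hK1, ?_⟩
  · -- the size
    obtain ⟨f, hf⟩ : ∃ f : ZMod N → (Fin d → ℕ), f = fun x i => ⌊(M:ℝ) * Int.fract ((x.val : ℝ) * θ i)⌋₊ :=
      ⟨_, rfl⟩
    have h1 := card_le_mul_card_image (f := f) (univ : Finset (ZMod N)) X.card (by
      intro p hp
      rw [mem_image] at hp
      obtain ⟨x₀, -, hx₀⟩ := hp
      refine card_le_card_of_injOn (fun x => x - x₀) ?_ ?_
      · intro x hx
        rw [mem_coe, mem_filter] at hx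
        rw [mem_coe, hXm]
        refine ⟨(x.val : ℤ) - x₀.val, by push_cast; simp, fun i => ?_⟩
        have h2 : f x = f x₀ := hx.2.trans hx₀.symm
        rw [hf] at h2
        have h3 := dz_fract hM0 _ _ (congrFun h2 i)
        push_cast
        rw [sub_mul]
        exact h3
      · intro x _ y _ hxy
        exact sub_left_injective hxy)
    rw [card_univ, ZMod.card] at h1
    have h2 : (univ : Finset (ZMod N)).image f ⊆ Fintype.piFinset (fun _ : Fin d => range M) := by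
      intro p hp
      rw [mem_image] at hp
      obtain ⟨x, -, rfl⟩ := hp
      rw [Fintype.mem_piFinset]
      intro i
      rw [mem_range, hf]
      simp only
      rw [Nat.floor_lt (mul_nonneg (by positivity) (Int.fract_nonneg _))]
      have := Int.fract_lt_one ((x.val : ℝ) * θ i)
      nlinarith
    have h3 := card_le_card h2
    rw [Fintype.card_piFinset, prod_const, card_univ, Fintype.card_fin, card_range] at h3
    have h4 : N ≤ X.card * M ^ d := h1.trans (Nat.mul_le_mul_left _ h3)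
    have h5 : (N:ℝ) / X.card ≤ (M:ℝ) ^ d := by
      rw [div_le_iff₀ hXc]
      have : (N:ℝ) ≤ X.card * (M:ℝ) ^ d := by exact_mod_cast h4
      linarith
    have hNr : (0:ℝ) < N := by exact_mod_cast NeZero.pos N
    have h6 := Real.log_le_log (by positivity) h5
    rw [Real.log_pow] at h6
    have hlm : 0 ≤ Real.log M := Real.log_nonneg (by linarith)
    calc _ ≤ (d:ℝ) * Real.log M := h6
      _ ≤ (C * l) * Real.log M := mul_le_mul_of_nonneg_right hd hlm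
      _ ≤ (C * l) * ((((1 + m : ℕ) : ℝ) + Real.log (8 + 1 / (c / 4)) / Real.log 2) * Real.log (2 + l)) :=
          mul_le_mul_of_nonneg_left hMD (by positivity)
      _ = _ := by ring
  · rintro x ⟨a, b, ha, hb, rfl⟩
    have ha' : ∀ i, ∃ y : ℤ, (y : ZMod N) = a i ∧ ∀ j, dz ((y:ℝ) * θ j) ≤ 1 / M := fun i => (hXm _).1 (ha i)
    have hb' : ∀ i, ∃ y : ℤ, (y : ZMod N) = b i ∧ ∀ j, dz ((y:ℝ) * θ j) ≤ 1 / M := fun i => (hXm _).1 (hb i)
    choose y hy1 hy2 using ha'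
    choose z hz1 hz2 using hb'
    have hn : ∀ w : ℤ, ∀ j, dz ((w:ℝ) * θ j) = ‖(((w:ℝ) * θ j : ℝ) : UnitAddCircle)‖ := fun w j =>
      UnitAddCircle.norm_eq.symm
    have h1 : ∀ (y : Fin K → ℤ), (∀ i j, dz ((y i:ℝ) * θ j) ≤ 1 / M) → ∀ j,
        ‖((((∑ i, y i : ℤ) : ℝ) * θ j : ℝ) : UnitAddCircle)‖ ≤ K * (1 / M) := by
      intro y hy j
      have e : ((((∑ i, y i : ℤ) : ℝ) * θ j : ℝ) : UnitAddCircle) = ∑ i, (((y i : ℝ) * θ j : ℝ) : UnitAddCircle) := by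
        push_cast
        rw [sum_mul]
        exact map_sum (QuotientAddGroup.mk' (AddSubgroup.zmultiples (1 : ℝ))) _ Finset.univ
      rw [e]
      refine (norm_sum_le _ _).trans ?_
      calc ∑ i, ‖(((y i : ℝ) * θ j : ℝ) : UnitAddCircle)‖ ≤ ∑ _i : Fin K, 1 / (M:ℝ) :=
            sum_le_sum fun i _ => by rw [← hn]; exact hy i j
        _ = _ := by simp
    obtain ⟨a₁, a₂, a₃, a₄, h2, h3, h4, h5, h6⟩ := h (∑ i, y i - ∑ i, z i) (fun j => by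
      rw [hn]
      have e : ((((∑ i, y i - ∑ i, z i : ℤ) : ℝ) * θ j : ℝ) : UnitAddCircle) =
          ((((∑ i, y i : ℤ) : ℝ) * θ j : ℝ) : UnitAddCircle) - ((((∑ i, z i : ℤ) : ℝ) * θ j : ℝ) : UnitAddCircle) := by
        rw [← AddCircle.coe_sub]
        push_cast
        congr 1
        ring
      rw [e]
      refine (norm_sub_le _ _).trans ?_
      have e1 := h1 y hy2 j
      have e2 := h1 z hz2 j
      have e3 : (K:ℝ) * (1 / M) + K * (1 / M) ≤ ε := by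
        have : 1 / (M:ℝ) * (2 * K) ≤ ε := by
          rw [← le_div_iff₀ (by positivity)]; exact hMε
        linarith
      linarith)
    refine ⟨a₁, h2, a₂, h3, a₃, h4, a₄, h5, ?_⟩
    have h7 : ((∑ i, y i - ∑ i, z i : ℤ) : ZMod N) = ((a₁ + a₂ - a₃ - a₄ : ℤ) : ZMod N) := by rw [h6]
    push_cast at h7
    rw [← h7]
    congr 1
    · exact sum_congr rfl fun i _ => (hy1 i).symm
    · exact sum_congr rfl fun i _ => (hz1 i).symm

end Pool.Agent.U463.CB
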